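import Pool.Agent.W753.CZ.LogDer

set_option autoImplicit false

open MeasureTheory Set Filter Topology

namespace Pool.Agent.T6.H68.QNR

variable {R : Type*} [NormedRing R] [NormedAlgebra ℝ R] [CompleteSpace R]

theorem logder_zero (B B' : ℝ → R) (a b : ℝ) (hab : a ≤ b) {N : Set ℝ} (hN : N.Countable)
    (hBc : Continuous B) (hB : ∀ φ, φ ∉ N → HasDerivAt B (B' φ) φ)
    (hB'm : StronglyMeasurable B') (CB : ℝ) (hB'b : ∀ φ ∈ Icc a b, ‖B' φ‖ ≤ CB) (hper : B b = B a)
    (hunit : ∀ t ∈ Icc (0 : ℝ) 1, ∀ φ, IsUnit ((1 - t) • (1 : R) + t • B φ))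
    (hcomm : ∀ φ, Commute (B' φ) (B φ)) :
    ∫ φ in a..b, B' φ * Ring.inverse (B φ) = 0 := by
  set C : ℝ → ℝ → R := fun t φ => (1 - t) • (1 : R) + t • B φ with hC
  set K : ℝ → ℝ → R := fun t φ => Ring.inverse (C t φ) with hK
  have hCK : ∀ t ∈ Icc (0 : ℝ) 1, ∀ φ, C t φ * K t φ = 1 := fun t ht φ =>
    Ring.mul_inverse_cancel _ (hunit t ht φ)
  have hKC : ∀ t ∈ Icc (0 : ℝ) 1, ∀ φ, K t φ * C t φ = 1 := fun t ht φ =>
    Ring.inverse_mul_cancel _ (hunit t ht φ)
  have hcommK : ∀ t ∈ Icc (0 : ℝ) 1, ∀ φ, K t φ * B' φ = B' φ * K t φ := by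
    intro t ht φ
    have h1 : Commute (B' φ) (C t φ) :=
      ((Commute.one_right _).smul_right _).add_right ((hcomm φ).smul_right _)
    have h2 : B' φ * C t φ = C t φ * B' φ := h1.eq
    calc K t φ * B' φ = K t φ * B' φ * (C t φ * K t φ) := by rw [hCK t ht φ, mul_one]
      _ = K t φ * (B' φ * C t φ) * K t φ := by noncomm_ring
      _ = K t φ * (C t φ * B' φ) * K t φ := by rw [h2]
      _ = (K t φ * C t φ) * B' φ * K t φ := by noncomm_ring
      _ = B' φ * K t φ := by rw [hKC t ht φ, one_mul]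
  have hCcont : Continuous (Function.uncurry C) := by
    have : Continuous (fun p : ℝ × ℝ => (1 - p.1) • (1 : R) + p.1 • B p.2) := by fun_prop
    exact this
  have hKcont : ContinuousOn (Function.uncurry K) (Icc (0 : ℝ) 1 ×ˢ univ) := by
    intro p hp
    have hu : IsUnit (C p.1 p.2) := hunit p.1 hp.1 p.2
    obtain ⟨u, hu⟩ := hu
    have h1 : ContinuousAt Ring.inverse (Function.uncurry C p) := by
      have := NormedRing.inverse_continuousAt u
      rw [hu] at this
      exact this
    exact (h1.comp hCcont.continuousAt).continuousWithinAt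
  set G : ℝ → ℝ → R := fun φ t => B' φ * K t φ * K t φ with hG
  have hsw : ContinuousOn (fun p : ℝ × ℝ => K p.2 p.1) (univ ×ˢ Icc (0 : ℝ) 1) := by
    have h1 : ContinuousOn (fun p : ℝ × ℝ => (p.2, p.1)) (univ ×ˢ Icc (0 : ℝ) 1) := by fun_prop
    exact hKcont.comp h1 (fun p hp => ⟨hp.2, mem_univ _⟩)
  have hcompact : IsCompact (Icc a b ×ˢ Icc (0 : ℝ) 1) := isCompact_Icc.prod isCompact_Icc
  obtain ⟨CK, hCK'⟩ := hcompact.exists_bound_of_continuousOn
    (hsw.mono (prod_mono (subset_univ _) le_rfl))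
  have hGbd : ∀ p ∈ Icc a b ×ˢ Icc (0 : ℝ) 1, ‖Function.uncurry G p‖ ≤ CB * CK * CK := by
    intro p hp
    have h1 := hCK' p hp
    have h0 : 0 ≤ CK := (norm_nonneg _).trans h1
    have h2 : 0 ≤ CB := (norm_nonneg _).trans (hB'b p.1 hp.1)
    calc ‖Function.uncurry G p‖ ≤ ‖B' p.1 * K p.2 p.1‖ * ‖K p.2 p.1‖ := norm_mul_le _ _
      _ ≤ (‖B' p.1‖ * ‖K p.2 p.1‖) * ‖K p.2 p.1‖ := by gcongr; exact norm_mul_le _ _
      _ ≤ CB * CK * CK := by gcongr; exact hB'b p.1 hp.1
  -- integral in t
  have hI1 : ∀ φ, ∫ t in (0 : ℝ)..1, G φ t = B' φ * Ring.inverse (B φ) := by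
    intro φ
    have hder : ∀ t ∈ uIcc (0 : ℝ) 1, HasDerivAt (fun t => t • (B' φ * K t φ)) (G φ t) t := by
      intro t ht
      rw [uIcc_of_le zero_le_one] at ht
      have h1 : HasDerivAt (fun t => C t φ) (B φ - 1) t := by
        have h2 : HasDerivAt (fun t : ℝ => (1 - t) • (1 : R)) (-(1 : R)) t := by
          have := ((hasDerivAt_id' t).const_sub 1).smul_const (1 : R)
          simpa using this
        have h3 : HasDerivAt (fun t : ℝ => t • B φ) (B φ) t := by
          have := (hasDerivAt_id' t).smul_const (B φ)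
          simpa using this
        have h4 := h2.add h3
        refine h4.congr_deriv ?_
        abel
      have h5 := Pool.Agent.W753.CZ.hasDerivAt_inv h1 (hunit t ht φ)
      have h6 := (hasDerivAt_id' t).smul (h5.const_mul (B' φ))
      refine h6.congr_deriv ?_
      have e1 : (1 : R) = C t φ - t • (B φ - 1) := by
        rw [hC]
        simp only [sub_smul, smul_sub, one_smul]
        abel
      have e2 : K t φ * 1 * K t φ = K t φ - t • (K t φ * (B φ - 1) * K t φ) := by
        calc K t φ * 1 * K t φ = K t φ * (C t φ - t • (B φ - 1)) * K t φ := by rw [← e1]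
          _ = K t φ * C t φ * K t φ - t • (K t φ * (B φ - 1) * K t φ) := by
              rw [mul_sub, sub_mul, mul_smul_comm, smul_mul_assoc]
          _ = _ := by rw [hKC t ht φ, one_mul]
      have e2' : K t φ * K t φ = K t φ - t • (K t φ * (B φ - 1) * K t φ) := by
        rw [← e2, mul_one]
      show t • (B' φ * -(K t φ * (B φ - 1) * K t φ)) + (1 : ℝ) • (B' φ * K t φ) =
        B' φ * K t φ * K t φ
      rw [mul_assoc (B' φ), e2', one_smul]
      generalize K t φ * (B φ - 1) * K t φ = X
      rw [mul_sub, mul_smul_comm, mul_neg, smul_neg]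
      abel
    have hcont : ContinuousOn (G φ) (uIcc (0 : ℝ) 1) := by
      rw [uIcc_of_le zero_le_one]
      have h1 : ContinuousOn (fun t : ℝ => K t φ) (Icc (0 : ℝ) 1) :=
        hsw.comp (by fun_prop : ContinuousOn (fun t : ℝ => (φ, t)) (Icc (0 : ℝ) 1))
          (fun t ht => ⟨mem_univ _, ht⟩)
      exact (continuousOn_const.mul h1).mul h1
    rw [intervalIntegral.integral_eq_sub_of_hasDerivAt hder hcont.intervalIntegrable]
    have : C 1 φ = B φ := by rw [hC]; simp
    rw [one_smul, zero_smul, sub_zero, hK]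
    simp only
    rw [this]
  -- integral in φ
  have hI2 : ∀ t ∈ Icc (0 : ℝ) 1, ∫ φ in a..b, G φ t = 0 := by
    intro t ht
    have hder : ∀ φ ∈ Ioo a b \ N, HasDerivAt (fun φ => (B φ - 1) * K t φ) (G φ t) φ := by
      intro φ hφ
      have hBφ := hB φ hφ.2
      have h1 : HasDerivAt (fun φ => C t φ) (t • B' φ) φ := by
        have := (hBφ.const_smul t).const_add ((1 - t) • (1 : R))
        exact this
      have h5 := Pool.Agent.W753.CZ.hasDerivAt_inv h1 (hunit t ht φ)
      have h6 := (hBφ.sub_const (1 : R)).mul h5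
      refine h6.congr_deriv ?_
      have e1 : (1 : R) = C t φ - t • (B φ - 1) := by
        rw [hC]
        simp only [sub_smul, smul_sub, one_smul]
        abel
      have e3 : K t φ = 1 - t • ((B φ - 1) * K t φ) := by
        calc K t φ = 1 * K t φ := (one_mul _).symm
          _ = (C t φ - t • (B φ - 1)) * K t φ := by rw [← e1]
          _ = _ := by rw [sub_mul, hCK t ht φ, smul_mul_assoc]
      have e4 : G φ t = K t φ * B' φ * K t φ := by rw [hG]; simp only; rw [hcommK t ht φ]
      rw [e4]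
      have e5 : B' φ * K t φ + (B φ - 1) * -(K t φ * (t • B' φ) * K t φ) =
            (1 - t • ((B φ - 1) * K t φ)) * B' φ * K t φ := by
        generalize B φ - 1 = D
        rw [mul_smul_comm, smul_mul_assoc, ← smul_neg, mul_smul_comm, sub_mul, sub_mul, one_mul,
          smul_mul_assoc, smul_mul_assoc, mul_neg, smul_neg, sub_eq_add_neg]
        simp only [mul_assoc]
      show B' φ * K t φ + (B φ - 1) * -(K t φ * (t • B' φ) * K t φ) = K t φ * B' φ * K t φ
      rw [e5, ← e3]
    have hKt : ContinuousOn (fun φ : ℝ => K t φ) (Icc a b) :=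
      hsw.comp (by fun_prop : ContinuousOn (fun φ : ℝ => (φ, t)) (Icc a b))
        (fun φ _ => ⟨mem_univ _, ht⟩)
    have hcontF : ContinuousOn (fun φ => (B φ - 1) * K t φ) (Icc a b) :=
      ((hBc.sub continuous_const).continuousOn).mul hKt
    have hint : IntervalIntegrable (fun φ => G φ t) volume a b := by
      rw [intervalIntegrable_iff_integrableOn_Icc_of_le hab]
      have h1 : AEStronglyMeasurable (fun φ : ℝ => K t φ) (volume.restrict (Icc a b)) :=
        hKt.aestronglyMeasurable measurableSet_Icc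
      have h2 : AEStronglyMeasurable B' (volume.restrict (Icc a b)) := hB'm.aestronglyMeasurable
      refine Integrable.of_bound ((h2.mul h1).mul h1) (CB * CK * CK) ?_
      filter_upwards [ae_restrict_mem measurableSet_Icc] with φ hφ
      exact hGbd (φ, t) ⟨hφ, ht⟩
    rw [integral_eq_of_hasDerivAt_off_countable_of_le _ _ hab hN hcontF hder hint]
    rw [hK, hC]
    simp only
    rw [hper, sub_self]
  have hswap : ∫ φ in a..b, ∫ t in (0 : ℝ)..1, G φ t = ∫ t in (0 : ℝ)..1, ∫ φ in a..b, G φ t := by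
    apply intervalIntegral_intervalIntegral_swap
    have hmeas : AEStronglyMeasurable (Function.uncurry G)
        (volume.restrict (Icc a b ×ˢ Icc (0 : ℝ) 1)) := by
      have h1 : AEStronglyMeasurable (fun p : ℝ × ℝ => K p.2 p.1)
          (volume.restrict (Icc a b ×ˢ Icc (0 : ℝ) 1)) :=
        (hsw.mono (prod_mono (subset_univ _) le_rfl)).aestronglyMeasurable
          (measurableSet_Icc.prod measurableSet_Icc)
      have h2 : AEStronglyMeasurable (fun p : ℝ × ℝ => B' p.1)
          (volume.restrict (Icc a b ×ˢ Icc (0 : ℝ) 1)) :=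
        (hB'm.comp_measurable measurable_fst).aestronglyMeasurable
      exact (h2.mul h1).mul h1
    have hIon : IntegrableOn (Function.uncurry G) (Icc a b ×ˢ Icc (0 : ℝ) 1) volume := by
      have : IsFiniteMeasure (volume.restrict (Icc a b ×ˢ Icc (0 : ℝ) 1)) :=
        ⟨by rw [Measure.restrict_apply_univ]; exact hcompact.measure_lt_top⟩
      refine Integrable.of_bound hmeas (CB * CK * CK) ?_
      filter_upwards [ae_restrict_mem (measurableSet_Icc.prod measurableSet_Icc)] with p hp
      exact hGbd p hp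
    refine hIon.mono_set (prod_mono ?_ ?_)
    · rw [uIoc_of_le hab]; exact Ioc_subset_Icc_self
    · rw [uIoc_of_le zero_le_one]; exact Ioc_subset_Icc_self
  rw [← intervalIntegral.integral_congr (fun φ _ => hI1 φ), hswap]
  rw [intervalIntegral.integral_congr (g := fun _ => (0 : R))
    (fun t ht => hI2 t (by rwa [uIcc_of_le zero_le_one] at ht))]
  simp

end Pool.Agent.T6.H68.QNR
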