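import Pool.Agent.T6.H68.QNR.Rad
import Pool.Agent.T6.H68.QNR.LogD

set_option autoImplicit false

open MeasureTheory Set Filter Topology Complex Polynomial

namespace Pool.Agent.T6.H68.QNR

variable {H : Type*} [NormedAddCommGroup H] [InnerProductSpace ℂ H] [CompleteSpace H]

/-- If `‖E‖ ≤ q < 1` and `S` is the inverse of `1 - E`, the pointwise inequality holds. -/
theorem pointwise_ineq (E S : H →L[ℂ] H) (q c : ℝ) (hq1 : q < 1) (hc2 : c ^ 2 = 1 - q ^ 2)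
    (hE : ‖E‖ ≤ q) (h1 : (1 - E) * S = 1) :
    ‖S‖ ≤ 1 / (1 - q) ∧ ∀ u s : H, 0 ≤ 2 * (inner ℂ u (S u)).re - ‖u‖ ^ 2
      - 2 * c * (inner ℂ s (S u)).re + ‖s‖ ^ 2 := by
  constructor
  · have h2 : S = 1 + E * S := by
      have : (1 - E) * S = S - E * S := by rw [sub_mul, one_mul]
      rw [this] at h1
      rw [← h1]; abel
    have h3 : ‖S‖ ≤ 1 + q * ‖S‖ := by
      calc ‖S‖ = ‖1 + E * S‖ := by rw [← h2]
        _ ≤ ‖(1 : H →L[ℂ] H)‖ + ‖E * S‖ := norm_add_le _ _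
        _ ≤ 1 + ‖E‖ * ‖S‖ := by
            gcongr
            · exact ContinuousLinearMap.norm_id_le
            · exact norm_mul_le _ _
        _ ≤ 1 + q * ‖S‖ := by gcongr
    rw [le_div_iff₀ (by linarith)]
    linarith
  · intro u s
    set v := S u with hv
    have hu : u = v - E v := by
      have h2 : (1 - E) (S u) = u := congrArg (fun Y : H →L[ℂ] H => Y u) h1
      rw [sub_apply, one_apply_eq_self] at h2
      rw [hv]; exact h2.symm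
    have hEv : ‖E v‖ ≤ q * ‖v‖ := (E.le_opNorm v).trans (by gcongr)
    have hEv2 : ‖E v‖ ^ 2 ≤ q ^ 2 * ‖v‖ ^ 2 := by
      rw [← mul_pow]
      exact pow_le_pow_left₀ (norm_nonneg _) hEv 2
    have e1 : ‖E v‖ ^ 2 = ‖v‖ ^ 2 - 2 * (inner ℂ u v).re + ‖u‖ ^ 2 := by
      have h2 : E v = v - u := by rw [hu]; abel
      rw [h2, norm_sub_sq (𝕜 := ℂ)]
      have : (inner ℂ u v).re = (inner ℂ v u).re := inner_re_symm (𝕜 := ℂ) _ _
      rw [this]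
      rfl
    have e2 : 0 ≤ ‖(c : ℂ) • v - s‖ ^ 2 := by positivity
    rw [norm_sub_sq (𝕜 := ℂ), norm_smul, Complex.norm_real, mul_pow, Real.norm_eq_abs, sq_abs,
      inner_smul_left, Complex.conj_ofReal] at e2
    have e3 : RCLike.re ((c : ℂ) * inner ℂ v s) = c * (inner ℂ s v).re := by
      rw [RCLike.re_eq_complex_re, Complex.re_ofReal_mul]
      congr 1
      exact inner_re_symm (𝕜 := ℂ) _ _
    rw [e3, hc2] at e2
    nlinarith

theorem unit_aux (A : H →L[ℂ] H) (q : ℝ) (hq1 : q < 1) (s w : ℂ) (hs : s ≠ w)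
    (hA : ‖A - w • (1 : H →L[ℂ] H)‖ ≤ q * ‖s - w‖) (hw : ‖w‖ ≤ q * ‖s - w‖) (hs0 : s ≠ 0)
    (t : ℝ) (ht : t ∈ Icc (0 : ℝ) 1) :
    IsUnit ((1 - t) • (1 : H →L[ℂ] H) + t • ((1 : H →L[ℂ] H) - s⁻¹ • A)) := by
  have hsw : s - w ≠ 0 := sub_ne_zero.mpr hs
  have hn : 0 < ‖s - w‖ := norm_pos_iff.mpr hsw
  set E : H →L[ℂ] H := (s - w)⁻¹ • ((t : ℂ) • A - w • (1 : H →L[ℂ] H)) with hE
  have hEn : ‖E‖ < 1 := by
    have h1 : ((t : ℂ) • A - w • (1 : H →L[ℂ] H)) =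
        (t : ℂ) • (A - w • (1 : H →L[ℂ] H)) - ((1 - t : ℝ) : ℂ) • (w • (1 : H →L[ℂ] H)) := by
      push_cast
      rw [smul_sub, sub_smul, one_smul]
      abel
    have h2 : ‖((t : ℂ) • A - w • (1 : H →L[ℂ] H))‖ ≤ q * ‖s - w‖ := by
      rw [h1]
      refine (norm_sub_le _ _).trans ?_
      rw [norm_smul, norm_smul, norm_smul, Complex.norm_real, Complex.norm_real,
        Real.norm_of_nonneg ht.1, Real.norm_of_nonneg (by linarith [ht.2] : (0:ℝ) ≤ 1 - t)]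
      have h3 : ‖(1 : H →L[ℂ] H)‖ ≤ 1 := ContinuousLinearMap.norm_id_le
      have h4 : ‖w‖ * ‖(1 : H →L[ℂ] H)‖ ≤ q * ‖s - w‖ := by
        calc ‖w‖ * ‖(1 : H →L[ℂ] H)‖ ≤ ‖w‖ * 1 := by gcongr
          _ ≤ q * ‖s - w‖ := by rw [mul_one]; exact hw
      have h5 : t * ‖A - w • (1 : H →L[ℂ] H)‖ ≤ t * (q * ‖s - w‖) :=
        mul_le_mul_of_nonneg_left hA ht.1
      have h6 : (1 - t) * (‖w‖ * ‖(1 : H →L[ℂ] H)‖) ≤ (1 - t) * (q * ‖s - w‖) :=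
        mul_le_mul_of_nonneg_left h4 (by linarith [ht.2])
      linarith
    rw [hE, norm_smul, norm_inv, inv_mul_lt_iff₀ hn, mul_one]
    refine h2.trans_lt ?_
    calc q * ‖s - w‖ < 1 * ‖s - w‖ := by gcongr
      _ = ‖s - w‖ := one_mul _
  have hu : IsUnit ((1 : H →L[ℂ] H) - E) := isUnit_one_sub_of_norm_lt_one hEn
  have e : (1 - t) • (1 : H →L[ℂ] H) + t • ((1 : H →L[ℂ] H) - s⁻¹ • A) =
      (s⁻¹ * (s - w)) • ((1 : H →L[ℂ] H) - E) := by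
    have e1 : s⁻¹ * (s - w) * (s - w)⁻¹ = s⁻¹ := by rw [mul_assoc, mul_inv_cancel₀ hsw, mul_one]
    have e2 : s⁻¹ * (s - w) = 1 - s⁻¹ * w := by rw [mul_sub, inv_mul_cancel₀ hs0]
    rw [hE, smul_sub (s⁻¹ * (s - w)), smul_smul (s⁻¹ * (s - w)), e1, e2, ← Complex.coe_smul,
      ← Complex.coe_smul]
    push_cast
    module
  rw [e]
  have hne : s⁻¹ * (s - w) ≠ 0 := mul_ne_zero (inv_ne_zero hs0) hsw
  exact hu.smul (Units.mk0 _ hne)

end Pool.Agent.T6.H68.QNR
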