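import Mathlib

set_option autoImplicit false

open ContinuousLinearMap

namespace Pool.Agent.T6.H68.QNR

variable {H : Type*} [NormedAddCommGroup H] [InnerProductSpace ℂ H] [CompleteSpace H]

/-- Elementary recursion. -/
theorem recursion_false (γ ε B : ℝ) (g : ℕ → ℝ) (hγ : 2 < γ) (hε : 0 < ε)
    (h1 : g 1 ≤ -ε) (hrec : ∀ k, 1 ≤ k → g (k + 1) ≤ γ * g k - g 1 - ε)
    (hlow : ∀ k, -B ≤ g k) : False := by
  have hstep : ∀ k, g (k + 1) ≤ (γ - 1) ^ k * g 1 ∧ g (k + 1) ≤ g 1 := by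
    intro k
    induction k with
    | zero => simp
    | succ k ih =>
      obtain ⟨ih1, ih2⟩ := ih
      have h := hrec (k + 1) (by omega)
      have h3 : g (k + 1 + 1) ≤ (γ - 1) * g (k + 1) := by nlinarith
      have h4 : (γ - 1) * g (k + 1) ≤ (γ - 1) * ((γ - 1) ^ k * g 1) := by
        apply mul_le_mul_of_nonneg_left ih1; linarith
      constructor
      · calc g (k + 1 + 1) ≤ (γ - 1) * ((γ - 1) ^ k * g 1) := h3.trans h4
          _ = (γ - 1) ^ (k + 1) * g 1 := by ring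
      · nlinarith
  obtain ⟨n, hn⟩ := pow_unbounded_of_one_lt ((B + 1) / ε) (show (1 : ℝ) < γ - 1 by linarith)
  have h2 := (hstep n).1
  have h3 := hlow (n + 1)
  rw [div_lt_iff₀ hε] at hn
  have h4 : 0 < (γ - 1) ^ n := by apply pow_pos; linarith
  nlinarith

/-- The quadratic expression attached to the three indices `0`, `1`, `k + 1`. -/
noncomputable def form (T : H →L[ℂ] H) (G : ℕ → H →L[ℂ] H) (lam : ℕ → ℂ) (c L : ℝ) (k : ℕ)
    (u0 u1 u2 s0 s1 : H) : ℝ :=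
  2 * (‖u0‖ ^ 2 + ‖u1‖ ^ 2 + ‖u2‖ ^ 2
      + (inner ℂ u0 (T u1)).re + (inner ℂ u0 ((T ^ (k + 1)) u2)).re + (inner ℂ u1 ((T ^ k) u2)).re
      + (inner ℂ u1 (G 1 u0)).re + (inner ℂ u2 (G (k + 1) u0)).re + (inner ℂ u2 (G k u1)).re)
    - L * (‖u0‖ ^ 2 + ‖u1‖ ^ 2 + ‖u2‖ ^ 2)
    - 2 * ((lam 1 * inner ℂ u0 u1).re + (lam (k + 1) * inner ℂ u0 u2).re
      + (lam k * inner ℂ u1 u2).re)
    - 2 * c * ((inner ℂ s0 (u0 + T u1 + (T ^ (k + 1)) u2)).re
      + (inner ℂ s1 (G 1 u0 + u1 + (T ^ k) u2)).re)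
    + (L * (‖s0‖ ^ 2 + ‖s1‖ ^ 2) + 2 * (lam 1 * inner ℂ s0 s1).re)

theorem core_q (T : H →L[ℂ] H) (G : ℕ → H →L[ℂ] H) (lam : ℕ → ℂ) (K c L Bd : ℝ) (x y : H)
    (hc0 : 0 ≤ c) (hc1 : c < 1) (hK : 0 < K) (hK2 : 4 * (1 - c) < K ^ 2 * (1 + c)) (hL : 0 ≤ L)
    (hx : ‖x‖ = 1) (hy : ‖y‖ = 1) (hTx : T x = (K : ℂ) • y) (hTy : star T y = (K : ℂ) • x)
    (hxy : inner ℂ x y = 0) (hcomm : ∀ n, T * G n = G n * T)
    (hB : ∀ k, ‖T ^ k * G k‖ ≤ Bd) (hB2 : ∀ k, ‖lam k‖ * ‖T ^ k‖ ≤ Bd)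
    (hpos : ∀ k, 1 ≤ k → ∀ u0 u1 u2 s0 s1 : H, 0 ≤ form T G lam c L k u0 u1 u2 s0 s1) : False := by
  have h1c : 0 < 1 - c := by linarith
  have h1c' : 0 < 1 + c := by linarith
  set τ : ℝ := (1 + c) * K / 2 with hτ
  have hτ0 : 0 < τ := by positivity
  set ζ : ℝ := τ / (1 - c) with hζ
  have hζ0 : 0 < ζ := by positivity
  have hadj : ∀ (S : H →L[ℂ] H) (u v : H), inner ℂ ((star S) u) v = inner ℂ u (S v) := by
    intro S u v; rw [ContinuousLinearMap.star_eq_adjoint, adjoint_inner_left]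
  have hadj' : ∀ (S : H →L[ℂ] H) (u v : H), inner ℂ u ((star S) v) = inner ℂ (S u) v := by
    intro S u v; rw [ContinuousLinearMap.star_eq_adjoint, adjoint_inner_right]
  have hmul : ∀ (S R : H →L[ℂ] H) (u : H), (S * R) u = S (R u) := fun _ _ _ => rfl
  have hyx : inner ℂ y x = 0 := by rw [← inner_conj_symm, hxy, map_zero]
  set v : ℕ → H := fun k => (star T ^ k) x with hv
  set S2 : ℕ → ℝ := fun k => ‖v k‖ ^ 2 with hS2
  set g : ℕ → ℝ := fun k => (inner ℂ x ((T ^ k * G k) x)).re - (lam k * inner ℂ x (v k)).re with hg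
  set h : ℝ := (inner ℂ x (G 1 y)).re with hh
  have hself : ∀ u : H, inner ℂ u u = ((‖u‖ ^ 2 : ℝ) : ℂ) := by
    intro u
    rw [inner_self_eq_norm_sq_to_K]
    push_cast; rfl
  -- basic evaluations
  have hv1 : ∀ k, inner ℂ x ((T ^ k) (v k)) = ((S2 k : ℝ) : ℂ) := by
    intro k
    rw [← hadj, star_pow]
    exact hself _
  have hv2 : ∀ k, inner ℂ y ((T ^ (k + 1)) (v k)) = ((K * S2 k : ℝ) : ℂ) := by
    intro k
    rw [pow_succ', hmul, ← hadj, hTy, inner_smul_left, hv1, Complex.conj_ofReal]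
    push_cast; rfl
  have hcomm' : ∀ k n, (T ^ k * G n) * T = T ^ (k + 1) * G n := by
    intro k n
    rw [mul_assoc, ← hcomm, ← mul_assoc, ← pow_succ]
  have hKy : ∀ k, K * ((inner ℂ (v k) (G (k + 1) y)).re - (lam (k + 1) * inner ℂ y (v k)).re) =
      g (k + 1) := by
    intro k
    have e1 : ((K : ℝ) : ℂ) * inner ℂ (v k) (G (k + 1) y) = inner ℂ x ((T ^ (k + 1) * G (k + 1)) x) := by
      rw [← inner_smul_right, ← map_smul, ← hTx, hv, ← hmul]
      simp only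
      rw [← star_pow, hadj, ← hmul, ← mul_assoc, hcomm']
    have e2 : ((K : ℝ) : ℂ) * inner ℂ y (v k) = inner ℂ x (v (k + 1)) := by
      have : v (k + 1) = star T (v k) := by rw [hv]; simp only; rw [pow_succ']; rfl
      rw [this, hadj', hTx, inner_smul_left, Complex.conj_ofReal]
    rw [hg]
    simp only
    rw [← e1, ← e2]
    have e3 : lam (k + 1) * (((K : ℝ) : ℂ) * inner ℂ y (v k)) =
      ((K : ℝ) : ℂ) * (lam (k + 1) * inner ℂ y (v k)) := by ring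
    rw [e3, Complex.re_ofReal_mul, Complex.re_ofReal_mul]
    ring
  have hg1 : g 1 = K * h := by
    have := hKy 0
    have hv0 : v 0 = x := by rw [hv]; simp
    rw [hv0, hyx, mul_zero, Complex.zero_re, sub_zero] at this
    rw [← this]
  have hgk : ∀ k, (inner ℂ (v k) (G k x)).re - (lam k * inner ℂ x (v k)).re = g k := by
    intro k
    rw [hg]
    simp only
    congr 2
    rw [hv]
    simp only
    rw [← star_pow, hadj, ← hmul]
  -- the main inequality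
  have rl : ∀ (a : ℝ) (u w : H), (inner ℂ ((a : ℂ) • u) w).re = a * (inner ℂ u w).re := by
    intro a u w
    rw [inner_smul_left, Complex.conj_ofReal, Complex.re_ofReal_mul]
  have rr : ∀ (a : ℝ) (u w : H), (inner ℂ u ((a : ℂ) • w)).re = a * (inner ℂ u w).re := by
    intro a u w
    rw [inner_smul_right, Complex.re_ofReal_mul]
  have nr : ∀ (a : ℝ) (u : H), ‖(a : ℂ) • u‖ ^ 2 = a ^ 2 * ‖u‖ ^ 2 := by
    intro a u
    rw [norm_smul, Complex.norm_real, mul_pow, Real.norm_eq_abs, sq_abs]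
  have hmain : ∀ k, 1 ≤ k → ∀ t : ℝ,
      0 ≤ 2 * ((1 + c) + (1 - c) * ζ ^ 2 - (1 + c) * ζ * K - (1 - c) * ζ * h)
        + S2 k * (2 * t * (t - (1 + c) * K + (1 - c) * ζ) - L * t ^ 2)
        - 2 * t * (g (k + 1) / K) + 2 * t * ζ * g k := by
    intro k hk t
    have h0 := hpos k hk y (((-ζ : ℝ) : ℂ) • x) (((-t : ℝ) : ℂ) • v k) (((-1 : ℝ) : ℂ) • y)
      (((-ζ : ℝ) : ℂ) • x)
    unfold form at h0
    have a1 : (inner ℂ y (T (((-ζ : ℝ) : ℂ) • x))).re = -(ζ * K) := by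
      rw [map_smul, rr, hTx, rr, hself, hy]
      norm_num
    have a2 : (inner ℂ y ((T ^ (k + 1)) (((-t : ℝ) : ℂ) • v k))).re = -(t * K * S2 k) := by
      rw [map_smul, rr, hv2, Complex.ofReal_re]
      ring
    have a3 : (inner ℂ (((-ζ : ℝ) : ℂ) • x) ((T ^ k) (((-t : ℝ) : ℂ) • v k))).re = ζ * t * S2 k := by
      rw [map_smul, rl, rr, hv1, Complex.ofReal_re]
      ring
    have a4 : (inner ℂ (((-ζ : ℝ) : ℂ) • x) (G 1 y)).re = -(ζ * h) := by
      rw [rl]; ring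
    have a5 : (inner ℂ (((-t : ℝ) : ℂ) • v k) (G (k + 1) y)).re =
        -(t * (inner ℂ (v k) (G (k + 1) y)).re) := by
      rw [rl]; ring
    have a6 : (inner ℂ (((-t : ℝ) : ℂ) • v k) (G k (((-ζ : ℝ) : ℂ) • x))).re =
        t * ζ * (inner ℂ (v k) (G k x)).re := by
      rw [map_smul, rl, rr]; ring
    have b1 : (lam 1 * inner ℂ y (((-ζ : ℝ) : ℂ) • x)).re = 0 := by
      rw [inner_smul_right, hyx]; simp
    have b2 : (lam (k + 1) * inner ℂ y (((-t : ℝ) : ℂ) • v k)).re =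
        -(t * (lam (k + 1) * inner ℂ y (v k)).re) := by
      rw [inner_smul_right, mul_left_comm, Complex.re_ofReal_mul]; ring
    have b3 : (lam k * inner ℂ (((-ζ : ℝ) : ℂ) • x) (((-t : ℝ) : ℂ) • v k)).re =
        ζ * t * (lam k * inner ℂ x (v k)).re := by
      rw [inner_smul_right, inner_smul_left, Complex.conj_ofReal, mul_left_comm,
        Complex.re_ofReal_mul, mul_left_comm, Complex.re_ofReal_mul]; ring
    have c1 : (inner ℂ (((-1 : ℝ) : ℂ) • y) (y + T (((-ζ : ℝ) : ℂ) • x)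
        + (T ^ (k + 1)) (((-t : ℝ) : ℂ) • v k))).re = -(1 - ζ * K - t * K * S2 k) := by
      rw [rl, inner_add_right, inner_add_right, Complex.add_re, Complex.add_re, a1, a2, hself, hy]
      norm_num
      ring
    have c2 : (inner ℂ (((-ζ : ℝ) : ℂ) • x) (G 1 y + ((-ζ : ℝ) : ℂ) • x
        + (T ^ k) (((-t : ℝ) : ℂ) • v k))).re = -(ζ * (h - ζ - t * S2 k)) := by
      rw [inner_add_right, inner_add_right, Complex.add_re, Complex.add_re, a3, a4, rl, rr, hself,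
        hx]
      norm_num
      ring
    have d1 : (lam 1 * inner ℂ (((-1 : ℝ) : ℂ) • y) (((-ζ : ℝ) : ℂ) • x)).re = 0 := by
      rw [inner_smul_right, inner_smul_left, hyx]; simp
    rw [a1, a2, a3, a4, a5, a6, b1, b2, b3, c1, c2, d1, nr, nr, nr, hx, hy] at h0
    have e1 := hKy k
    have e2 := hgk k
    have e3 : g (k + 1) / K = (inner ℂ (v k) (G (k + 1) y)).re
        - (lam (k + 1) * inner ℂ y (v k)).re := by
      rw [← e1]; field_simp
    have e4 : ‖v k‖ ^ 2 = S2 k := rfl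
    rw [e4] at h0
    rw [e3, ← e2]
    refine h0.trans (le_of_eq ?_)
    ring
  have hS2 : ∀ k, 0 ≤ S2 k := fun k => by rw [hS2]; positivity
  have hζτ : (1 - c) * ζ = τ := by rw [hζ]; field_simp
  have hτK : (1 + c) * K = 2 * τ := by rw [hτ]; ring
  have hΦ : (1 + c) + (1 - c) * ζ ^ 2 - (1 + c) * ζ * K - (1 - c) * ζ * h =
      (1 + c) - τ * ζ - τ * h := by
    have e1 : (1 - c) * ζ ^ 2 = τ * ζ := by rw [← hζτ]; ring
    have e2 : (1 + c) * ζ * K = 2 * τ * ζ := by rw [← hτK]; ring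
    rw [e1, e2, hζτ]
    ring
  have hτζ : 1 + c < τ * ζ := by
    have e1 : τ * ζ * (1 - c) = τ ^ 2 := by
      have : τ * ζ * (1 - c) = τ * ((1 - c) * ζ) := by ring
      rw [this, hζτ]; ring
    have e2 : (1 + c) * (1 - c) < τ * ζ * (1 - c) := by
      rw [e1, hτ]
      nlinarith
    exact lt_of_mul_lt_mul_right e2 h1c.le
  have hγ : 2 < K * ζ := by
    have e1 : K * ζ * (1 + c) = 2 * (τ * ζ) := by
      have : K * ζ * (1 + c) = (1 + c) * K * ζ := by ring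
      rw [this, hτK]; ring
    nlinarith
  set ε : ℝ := K / τ * (τ * ζ - (1 + c)) with hε
  have hε0 : 0 < ε := by
    rw [hε]; apply mul_pos (by positivity); linarith
  have hg1' : g 1 ≤ -ε := by
    have h0 := hmain 1 le_rfl 0
    rw [hΦ] at h0
    have h1 : τ * h ≤ (1 + c) - τ * ζ := by nlinarith
    rw [hg1, hε]
    have h2 : h ≤ ((1 + c) - τ * ζ) / τ := by rw [le_div_iff₀ hτ0]; linarith
    calc K * h ≤ K * (((1 + c) - τ * ζ) / τ) := by gcongr
      _ = -(K / τ * (τ * ζ - (1 + c))) := by ring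
  refine recursion_false (K * ζ) ε (Bd + Bd) g hγ hε0 hg1' ?_ ?_
  · intro k hk
    have h0 := hmain k hk τ
    rw [hΦ] at h0
    have h1 : S2 k * (2 * τ * (τ - (1 + c) * K + (1 - c) * ζ) - L * τ ^ 2) ≤ 0 := by
      have e : 2 * τ * (τ - (1 + c) * K + (1 - c) * ζ) - L * τ ^ 2 = -(L * τ ^ 2) := by
        rw [hτK, hζτ]; ring
      rw [e]
      have := mul_nonneg (hS2 k) (mul_nonneg hL (sq_nonneg τ))
      linarith
    have h2 : 2 * τ * (g (k + 1) / K) ≤ 2 * ((1 + c) - τ * ζ - τ * h) + 2 * τ * ζ * g k := by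
      linarith
    have h3 : g (k + 1) = (K / (2 * τ)) * (2 * τ * (g (k + 1) / K)) := by field_simp
    rw [h3]
    calc (K / (2 * τ)) * (2 * τ * (g (k + 1) / K)) ≤
        (K / (2 * τ)) * (2 * ((1 + c) - τ * ζ - τ * h) + 2 * τ * ζ * g k) := by gcongr
      _ = K * ζ * g k - g 1 - ε := by
        rw [hg1, hε]
        field_simp
        ring
  · intro k
    have hvk : ‖v k‖ ≤ ‖T ^ k‖ := by
      rw [hv]
      simp only
      rw [← star_pow]
      calc ‖(star (T ^ k)) x‖ ≤ ‖star (T ^ k)‖ * ‖x‖ := (star (T ^ k)).le_opNorm x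
        _ = ‖T ^ k‖ := by rw [norm_star, hx, mul_one]
    have h1 : |(inner ℂ x ((T ^ k * G k) x)).re| ≤ Bd := by
      calc |(inner ℂ x ((T ^ k * G k) x)).re| ≤ ‖inner ℂ x ((T ^ k * G k) x)‖ :=
            Complex.abs_re_le_norm _
        _ ≤ ‖x‖ * ‖(T ^ k * G k) x‖ := norm_inner_le_norm _ _
        _ ≤ ‖x‖ * (‖T ^ k * G k‖ * ‖x‖) := by gcongr; exact (T ^ k * G k).le_opNorm x
        _ ≤ Bd := by rw [hx]; simpa using hB k
    have h2 : |(lam k * inner ℂ x (v k)).re| ≤ Bd := by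
      calc |(lam k * inner ℂ x (v k)).re| ≤ ‖lam k * inner ℂ x (v k)‖ :=
            Complex.abs_re_le_norm _
        _ = ‖lam k‖ * ‖inner ℂ x (v k)‖ := norm_mul _ _
        _ ≤ ‖lam k‖ * (‖x‖ * ‖v k‖) := by gcongr; exact norm_inner_le_norm _ _
        _ ≤ ‖lam k‖ * ‖T ^ k‖ := by rw [hx, one_mul]; gcongr
        _ ≤ Bd := hB2 k
    have h3 := (abs_le.mp h1).1
    have h4 := (abs_le.mp h2).2
    rw [hg]
    simp only
    linarith

end Pool.Agent.T6.H68.QNR
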