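import Pool.Agent.T6.H68.QNR.Rad

set_option autoImplicit false

open MeasureTheory Set Filter Topology Complex

namespace Pool.Agent.T6.H68.QNR

theorem norm_exp_neg (φ : ℝ) : ‖exp (-(φ : ℂ) * I)‖ = 1 := by
  have : -(φ : ℂ) * I = ((-φ : ℝ) : ℂ) * I := by push_cast; ring
  rw [this]
  exact Complex.norm_exp_ofReal_mul_I _

theorem exp_mul_exp_neg (φ : ℝ) : exp ((φ : ℂ) * I) * exp (-(φ : ℂ) * I) = 1 := by
  rw [← Complex.exp_add, neg_mul, add_neg_cancel, Complex.exp_zero]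

/-- the boundary point -/
noncomputable def sg (R : ℝ → ℝ) (φ : ℝ) : ℂ := (R φ : ℂ) * exp ((φ : ℂ) * I)

/-- the weight -/
noncomputable def kap (R : ℝ → ℝ) (w : ℝ → ℂ) (φ : ℝ) : ℝ := R φ / (dd R w φ).re

theorem sg_sub (R : ℝ → ℝ) (w : ℝ → ℂ) (φ : ℝ) :
    sg R φ - w φ = exp ((φ : ℂ) * I) * dd R w φ := by
  unfold dd sg
  rw [mul_sub, ← mul_assoc, exp_mul_exp_neg]
  ring

theorem norm_sg_sub (R : ℝ → ℝ) (w : ℝ → ℂ) (φ : ℝ) : ‖sg R φ - w φ‖ = ‖dd R w φ‖ := by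
  rw [sg_sub, norm_mul, Complex.norm_exp_ofReal_mul_I, one_mul]

section
variable {J : Set (ℂ × ℝ)} {R : ℝ → ℝ} {w : ℝ → ℂ} {N : Set ℝ} (hR : Rad J R w N)
include hR

theorem sg_cont : Continuous (sg R) :=
  (Complex.continuous_ofReal.comp hR.cont).mul (by fun_prop)

theorem sg_ne (φ : ℝ) : sg R φ ≠ 0 := by
  intro h
  have := congrArg norm h
  unfold sg at this
  rw [norm_mul, Complex.norm_exp_ofReal_mul_I, mul_one, Complex.norm_real, norm_zero,
    Real.norm_of_nonneg (hR.pos φ).le] at this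
  exact (hR.pos φ).ne' this

theorem sg_per : sg R (2 * Real.pi) = sg R 0 := by
  have h1 := hR.per 0
  rw [zero_add] at h1
  unfold sg
  rw [h1]
  push_cast
  rw [Complex.exp_two_pi_mul_I]
  simp

theorem sg_inside (φ : ℝ) (j : ℂ × ℝ) (hj : j ∈ J) : ‖sg R φ - j.1‖ ≤ j.2 := by
  have h := hR.inside φ (R φ) (hR.pos φ).le le_rfl j hj
  have e : sg R φ - j.1 = exp ((φ : ℂ) * I) * ((R φ : ℂ) - exp (-(φ : ℂ) * I) * j.1) := by
    unfold sg
    rw [mul_sub, ← mul_assoc, exp_mul_exp_neg]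
    ring
  rw [e, norm_mul, Complex.norm_exp_ofReal_mul_I, one_mul]
  exact h

theorem kap_pos (φ : ℝ) : 0 < kap R w φ := div_pos (hR.pos φ) (hR.red φ)

theorem dd_meas : Measurable (dd R w) := by
  have h1 : Measurable (fun φ => (R φ : ℂ)) :=
    (Complex.continuous_ofReal.comp hR.cont).measurable
  have h2 : Measurable (fun φ : ℝ => exp (-(φ : ℂ) * I)) := by
    apply Continuous.measurable
    fun_prop
  exact h1.sub (h2.mul hR.meas)

theorem kap_meas : Measurable (kap R w) :=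
  hR.cont.measurable.div (Complex.measurable_re.comp (dd_meas hR))

theorem dd_re_lower {q c : ℝ} (hc : c ^ 2 = 1 - q ^ 2) (φ : ℝ)
    (hw : ‖w φ‖ ≤ q * ‖dd R w φ‖) : c * ‖dd R w φ‖ ≤ (dd R w φ).re := by
  have h1 : |(dd R w φ).im| ≤ q * ‖dd R w φ‖ := by
    have : (dd R w φ).im = -(exp (-(φ : ℂ) * I) * w φ).im := by
      unfold dd
      rw [Complex.sub_im, Complex.ofReal_im, zero_sub]
    rw [this, abs_neg]
    calc |(exp (-(φ : ℂ) * I) * w φ).im| ≤ ‖exp (-(φ : ℂ) * I) * w φ‖ := Complex.abs_im_le_norm _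
      _ = ‖w φ‖ := by rw [norm_mul, norm_exp_neg, one_mul]
      _ ≤ q * ‖dd R w φ‖ := hw
  have h2 : (dd R w φ).re ^ 2 + (dd R w φ).im ^ 2 = ‖dd R w φ‖ ^ 2 := by
    rw [← Complex.normSq_eq_norm_sq, Complex.normSq_apply]
    ring
  have h3 : (dd R w φ).im ^ 2 ≤ (q * ‖dd R w φ‖) ^ 2 :=
    sq_le_sq' (abs_le.mp h1).1 (abs_le.mp h1).2
  apply le_of_sq_le_sq _ (hR.red φ).le
  rw [mul_pow, hc]
  nlinarith

theorem R_le {q : ℝ} (hq1 : q < 1) (φ : ℝ)
    (hw : ‖w φ‖ ≤ q * ‖dd R w φ‖) : R φ ≤ 2 * ‖dd R w φ‖ := by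
  have h1 : (R φ : ℂ) = dd R w φ + exp (-(φ : ℂ) * I) * w φ := by
    unfold dd
    ring
  have h2 : ‖(R φ : ℂ)‖ ≤ ‖dd R w φ‖ + q * ‖dd R w φ‖ := by
    rw [h1]
    refine (norm_add_le _ _).trans ?_
    rw [norm_mul, norm_exp_neg, one_mul]
    exact add_le_add le_rfl hw
  rw [Complex.norm_real, Real.norm_of_nonneg (hR.pos φ).le] at h2
  nlinarith [norm_nonneg (dd R w φ)]

theorem kap_le {q c : ℝ} (hc0 : 0 < c) (hq1 : q < 1) (hc : c ^ 2 = 1 - q ^ 2) (φ : ℝ)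
    (hw : ‖w φ‖ ≤ q * ‖dd R w φ‖) : kap R w φ ≤ 2 / c := by
  unfold kap
  rw [div_le_div_iff₀ (hR.red φ) hc0]
  calc R φ * c ≤ 2 * ‖dd R w φ‖ * c := by gcongr; exact R_le hR hq1 φ hw
    _ = 2 * (c * ‖dd R w φ‖) := by ring
    _ ≤ 2 * (dd R w φ).re := by gcongr; exact dd_re_lower hR hc φ hw

theorem sg_deriv (φ : ℝ) (hφ : φ ∉ N) :
    HasDerivAt (sg R) (I * (kap R w φ : ℂ) * (sg R φ - w φ)) φ := by
  have h0 : HasDerivAt (fun φ : ℝ => exp ((φ : ℂ) * I)) (I * exp ((φ : ℂ) * I)) φ := by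
    have h1 : HasDerivAt (fun φ : ℝ => (φ : ℂ) * I) (1 * I) φ :=
      ((hasDerivAt_id' φ).ofReal_comp).mul_const I
    have := h1.cexp
    refine this.congr_deriv ?_
    ring
  have h1 := (hR.der φ hφ).ofReal_comp.mul h0
  refine h1.congr_deriv ?_
  rw [sg_sub]
  unfold kap
  have hDre : ((dd R w φ).re : ℂ) ≠ 0 := by
    have := (hR.red φ).ne'
    exact_mod_cast this
  have hDD : dd R w φ = ((dd R w φ).re : ℂ) + ((dd R w φ).im : ℂ) * I :=
    (Complex.re_add_im _).symm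
  set a : ℝ := (dd R w φ).re
  set b : ℝ := (dd R w φ).im
  rw [hDD]
  push_cast
  field_simp
  linear_combination (-(R φ : ℂ) * b) * Complex.I_sq

/-- `∫ σ' / σ = 2πi` -/
theorem log_int {q c : ℝ} (hc0 : 0 < c) (hq1 : q < 1) (hc : c ^ 2 = 1 - q ^ 2)
    (hw : ∀ φ, ‖w φ‖ ≤ q * ‖dd R w φ‖) (ρ1 : ℝ) (hρ1 : ∀ φ, ‖dd R w φ‖ ≤ ρ1) :
    (∫ φ in (0 : ℝ)..(2 * Real.pi), I * (kap R w φ : ℂ) * (sg R φ - w φ) * (sg R φ)⁻¹) =
      2 * Real.pi * I := by
  have hp : (0 : ℝ) ≤ 2 * Real.pi := by positivity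
  have hder : ∀ φ, φ ∉ N → HasDerivAt (fun φ => ((Real.log (R φ) : ℝ) : ℂ) + (φ : ℂ) * I)
      (I * (kap R w φ : ℂ) * (sg R φ - w φ) * (sg R φ)⁻¹) φ := by
    intro φ hφ
    have h1 := ((hR.der φ hφ).log (hR.pos φ).ne').ofReal_comp.add
      (((hasDerivAt_id' φ).ofReal_comp).mul_const I)
    refine h1.congr_deriv ?_
    rw [sg_sub]
    unfold kap sg
    have hDre : ((dd R w φ).re : ℂ) ≠ 0 := by
      have := (hR.red φ).ne'
      exact_mod_cast this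
    have hRne : (R φ : ℂ) ≠ 0 := by
      have := (hR.pos φ).ne'
      exact_mod_cast this
    have hDD : dd R w φ = ((dd R w φ).re : ℂ) + ((dd R w φ).im : ℂ) * I :=
      (Complex.re_add_im _).symm
    have hex : exp ((φ : ℂ) * I) ≠ 0 := Complex.exp_ne_zero _
    set a : ℝ := (dd R w φ).re
    set b : ℝ := (dd R w φ).im
    rw [hDD]
    push_cast
    field_simp
    linear_combination (-(b : ℂ)) * Complex.I_sq
  have hcont : Continuous (fun φ => ((Real.log (R φ) : ℝ) : ℂ) + (φ : ℂ) * I) := by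
    have h1 : Continuous (fun φ => Real.log (R φ)) := hR.cont.log fun φ => (hR.pos φ).ne'
    fun_prop
  have hmeas : Measurable (fun φ => I * (kap R w φ : ℂ) * (sg R φ - w φ) * (sg R φ)⁻¹) :=
    ((measurable_const.mul (Complex.measurable_ofReal.comp (kap_meas hR))).mul
      ((sg_cont hR).measurable.sub hR.meas)).mul (sg_cont hR).measurable.inv
  obtain ⟨C, hC⟩ := (isCompact_Icc (a := (0 : ℝ)) (b := 2 * Real.pi)).exists_bound_of_continuousOn
    (((sg_cont hR).inv₀ (sg_ne hR)).continuousOn)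
  have hint : IntervalIntegrable (fun φ => I * (kap R w φ : ℂ) * (sg R φ - w φ) * (sg R φ)⁻¹)
      volume 0 (2 * Real.pi) := by
    rw [intervalIntegrable_iff_integrableOn_Icc_of_le hp]
    refine Integrable.of_bound hmeas.aestronglyMeasurable (2 / c * ρ1 * C) ?_
    filter_upwards [ae_restrict_mem measurableSet_Icc] with φ hφ
    rw [norm_mul, norm_mul, norm_mul, Complex.norm_I, one_mul, Complex.norm_real,
      Real.norm_of_nonneg (kap_pos hR φ).le, norm_sg_sub]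
    have h1 := kap_le hR hc0 hq1 hc φ (hw φ)
    have h2 : ‖(sg R φ)⁻¹‖ ≤ C := hC φ hφ
    have h3 := hρ1 φ
    have h4 := (kap_pos hR φ).le
    have h5 : 0 ≤ ρ1 := (norm_nonneg _).trans h3
    gcongr
  rw [integral_eq_of_hasDerivAt_off_countable_of_le _ _ hp hR.cnt hcont.continuousOn
    (fun φ hφ => hder φ hφ.2) hint]
  have h1 := hR.per 0
  rw [zero_add] at h1
  rw [h1]
  push_cast
  ring

end

end Pool.Agent.T6.H68.QNR
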