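import Pool.Agent.T6.H68.QNR.Ext

set_option autoImplicit false

open MeasureTheory Filter Topology Polynomial

namespace Pool.Agent.T6.H68.QNR

variable {H : Type*} [NormedAddCommGroup H] [InnerProductSpace ℂ H]

theorem commute_aeval {A Y : H →L[ℂ] H} (h : A * Y = Y * A) (f : ℂ[X]) :
    aeval A f * Y = Y * aeval A f := by
  have h' : Commute A Y := h
  have : Commute (aeval A f) Y := by
    induction f using Polynomial.induction_on' with
    | add p q hp hq => rw [map_add]; exact hp.add_left hq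
    | monomial n a =>
      rw [Polynomial.aeval_monomial]
      exact (Algebra.commute_algebraMap_left a Y).mul_left (h'.pow_left n)
  exact this.eq

theorem moebius_bound (w a : ℂ) (hw : ‖w‖ ≤ 1) (ha : ‖a‖ ≤ 1) :
    ‖(w - a) * (1 + star a * w)‖ ≤ 1 + ‖a‖ ^ 2 := by
  have h1 : ‖w - a‖ ≤ ‖1 - star a * w‖ := by
    have h2 : ‖w - a‖ ^ 2 ≤ ‖1 - star a * w‖ ^ 2 := by
      rw [← Complex.normSq_eq_norm_sq, ← Complex.normSq_eq_norm_sq, Complex.normSq_sub,
        Complex.normSq_sub]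
      have e1 : (1 * (starRingEnd ℂ) (star a * w)).re = (w * (starRingEnd ℂ) a).re := by
        rw [one_mul, Complex.conj_re, Complex.star_def, mul_comm]
      have e2 : Complex.normSq (star a * w) = Complex.normSq a * Complex.normSq w := by
        rw [map_mul, Complex.star_def, Complex.normSq_conj]
      rw [e1, e2, Complex.normSq_one]
      have h3 : Complex.normSq w ≤ 1 := by
        rw [Complex.normSq_eq_norm_sq]; exact pow_le_one₀ (norm_nonneg _) hw
      have h4 : Complex.normSq a ≤ 1 := by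
        rw [Complex.normSq_eq_norm_sq]; exact pow_le_one₀ (norm_nonneg _) ha
      nlinarith
    exact le_of_sq_le_sq h2 (norm_nonneg _) 
  calc ‖(w - a) * (1 + star a * w)‖ = ‖w - a‖ * ‖1 + star a * w‖ := norm_mul _ _
    _ ≤ ‖1 - star a * w‖ * ‖1 + star a * w‖ := by gcongr
    _ = ‖1 - (star a * w) ^ 2‖ := by rw [← norm_mul]; congr 1; ring
    _ ≤ ‖(1 : ℂ)‖ + ‖(star a * w) ^ 2‖ := norm_sub_le _ _
    _ = 1 + ‖a‖ ^ 2 * ‖w‖ ^ 2 := by rw [norm_one, norm_pow, norm_mul, norm_star, mul_pow]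
    _ ≤ 1 + ‖a‖ ^ 2 * 1 := by
        gcongr
        exact pow_le_one₀ (norm_nonneg _) hw
    _ = 1 + ‖a‖ ^ 2 := by ring

variable [FiniteDimensional ℂ H] [CompleteSpace H]

theorem field_bound [Nontrivial H] {α : Type*} [MeasurableSpace α] (μ : Measure α)
    [IsFiniteMeasure μ] (A : H →L[ℂ] H) (σ : α → ℂ) (S : α → H →L[ℂ] H) (c Cs : ℝ)
    (hc0 : 0 ≤ c) (hc1 : c < 1) (hσ : Measurable σ) (hSm : AEStronglyMeasurable S μ)
    (hSb : ∀ t, ‖S t‖ ≤ Cs)
    (hS : ∀ t, ∀ u s : H, 0 ≤ 2 * (inner ℂ u (S t u)).re - ‖u‖ ^ 2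
      - 2 * c * (inner ℂ s (S t u)).re + ‖s‖ ^ 2)
    (hcomm : ∀ t, A * S t = S t * A)
    (hrep : ∀ f : ℂ[X], ∫ t, f.eval (σ t) • S t ∂μ = aeval A f)
    (p : ℂ[X]) (hp : ∀ t, ‖p.eval (σ t)‖ ≤ 1) :
    ‖aeval A p‖ ≤ max 1 (2 * √((1 - c) / (1 + c))) := by
  by_contra hcon
  push Not at hcon
  set L : ℝ := μ.real Set.univ with hL
  have hL0 : 0 ≤ L := measureReal_nonneg
  have hCs : 0 ≤ Cs ∨ IsEmpty α := by
    rcases isEmpty_or_nonempty α with h | ⟨⟨t⟩⟩
    · exact Or.inr h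
    · exact Or.inl ((norm_nonneg _).trans (hSb t))
  -- general integrability facts
  have hwi : ∀ w : α → ℂ, Measurable w → (∀ t, ‖w t‖ ≤ 1) → Integrable (fun t => w t • S t) μ := by
    intro w hw hw1
    refine Integrable.of_bound (hw.aestronglyMeasurable.smul hSm) Cs (ae_of_all _ fun t => ?_)
    rw [norm_smul]
    calc ‖w t‖ * ‖S t‖ ≤ 1 * ‖S t‖ := by gcongr; exact hw1 t
      _ = ‖S t‖ := one_mul _
      _ ≤ Cs := hSb t
  have hwb : ∀ w : α → ℂ, (∀ t, ‖w t‖ ≤ 1) → ‖∫ t, w t • S t ∂μ‖ ≤ Cs * L := by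
    intro w hw1
    refine norm_integral_le_of_norm_le_const (ae_of_all _ fun t => ?_)
    rw [norm_smul]
    calc ‖w t‖ * ‖S t‖ ≤ 1 * ‖S t‖ := by gcongr; exact hw1 t
      _ = ‖S t‖ := one_mul _
      _ ≤ Cs := hSb t
  have hwz : ∀ w : α → ℂ, Measurable w → (∀ t, ‖w t‖ ≤ 1) → Integrable w μ := by
    intro w hw hw1
    exact Integrable.of_bound hw.aestronglyMeasurable 1 (ae_of_all _ hw1)
  have hwzb : ∀ w : α → ℂ, (∀ t, ‖w t‖ ≤ 1) → ‖∫ t, w t ∂μ‖ ≤ 1 * L := by
    intro w hw1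
    exact norm_integral_le_of_norm_le_const (ae_of_all _ hw1)
  set Fam : Set ℂ[X] := {f | ∀ t, ‖f.eval (σ t)‖ ≤ 1} with hFam
  have hmeas : ∀ f : ℂ[X], Measurable fun t => f.eval (σ t) := fun f =>
    (by fun_prop : Measurable fun z : ℂ => f.eval z).comp hσ
  have hmeass : ∀ f : ℂ[X], Measurable fun t => star (f.eval (σ t)) := fun f =>
    (continuous_star.measurable).comp (hmeas f)
  have hpow : ∀ (w : α → ℂ), (∀ t, ‖w t‖ ≤ 1) → ∀ n : ℕ, ∀ t, ‖w t ^ n‖ ≤ 1 := by
    intro w hw n t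
    rw [norm_pow]
    exact pow_le_one₀ (norm_nonneg _) (hw t)
  set NS : Set ℝ := (fun f : ℂ[X] => ‖aeval A f‖) '' Fam with hNS
  have hbdd : BddAbove NS := by
    refine ⟨Cs * L, ?_⟩
    rintro _ ⟨f, hf, rfl⟩
    show ‖aeval A f‖ ≤ _
    rw [← hrep f]
    exact hwb _ hf
  have hne : NS.Nonempty := ⟨_, p, hp, rfl⟩
  set K : ℝ := sSup NS with hK
  have hle : ∀ f ∈ Fam, ‖aeval A f‖ ≤ K := fun f hf => le_csSup hbdd ⟨f, hf, rfl⟩
  have hKM : max 1 (2 * √((1 - c) / (1 + c))) < K := lt_of_lt_of_le hcon (hle p hp)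
  have hK1 : 1 < K := lt_of_le_of_lt (le_max_left _ _) hKM
  have hK2 : 4 * (1 - c) < K ^ 2 * (1 + c) := by
    have h1 : 2 * √((1 - c) / (1 + c)) < K := lt_of_le_of_lt (le_max_right _ _) hKM
    have h2 : 0 ≤ (1 - c) / (1 + c) := by apply div_nonneg <;> linarith
    have h3 : (2 * √((1 - c) / (1 + c))) ^ 2 < K ^ 2 := by
      apply pow_lt_pow_left₀ h1 (by positivity) (by norm_num)
    rw [mul_pow, Real.sq_sqrt h2] at h3
    have h4 : 0 < 1 + c := by linarith
    have h5 : 2 ^ 2 * ((1 - c) / (1 + c)) * (1 + c) < K ^ 2 * (1 + c) := by gcongr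
    have h6 : 2 ^ 2 * ((1 - c) / (1 + c)) * (1 + c) = 4 * (1 - c) := by
      field_simp
      norm_num [mul_comm]
    linarith
  obtain ⟨u, _, hu, hmem⟩ := exists_seq_tendsto_sSup hne hbdd
  choose f hfF hfu using hmem
  set U : Ultrafilter ℕ := hyperfilter ℕ with hU
  have hUle : (U : Filter ℕ) ≤ atTop := Nat.hyperfilter_le_atTop
  have : ProperSpace (H →L[ℂ] H) := FiniteDimensional.proper ℂ _
  have hTb : ∀ m, ‖aeval A (f m)‖ ≤ K := fun m => hle _ (hfF m)
  obtain ⟨T, hT⟩ := ulim U (fun m => aeval A (f m)) K hTb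
  have hGb : ∀ n m, ‖∫ t, star ((f m).eval (σ t)) ^ n • S t ∂μ‖ ≤ Cs * L := by
    intro n m
    refine hwb _ fun t => ?_
    rw [norm_pow, norm_star]
    exact pow_le_one₀ (norm_nonneg _) (hfF m t)
  have hlb : ∀ n m, ‖∫ t, (f m).eval (σ t) ^ n ∂μ‖ ≤ 1 * L := by
    intro n m
    exact hwzb _ (hpow _ (hfF m) n)
  choose G hG using fun n => ulim U (fun m => ∫ t, star ((f m).eval (σ t)) ^ n • S t ∂μ) _ (hGb n)
  choose lam hlam using fun n => ulim U (fun m => ∫ t, (f m).eval (σ t) ^ n ∂μ) _ (hlb n)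
  have hTK : ‖T‖ = K := by
    have h1 : Tendsto (fun m => ‖aeval A (f m)‖) U (𝓝 ‖T‖) := hT.norm
    have h2 : Tendsto (fun m => ‖aeval A (f m)‖) U (𝓝 K) := by
      have : (fun m => ‖aeval A (f m)‖) = u := funext hfu
      rw [this]
      exact hu.mono_left hUle
    exact tendsto_nhds_unique h1 h2
  have hTpow : ∀ n m, ∫ t, (f m).eval (σ t) ^ n • S t ∂μ = (aeval A (f m)) ^ n := by
    intro n m
    have := hrep (f m ^ n)
    rw [map_pow] at this
    rw [← this]
    simp only [eval_pow]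
  have hcommG : ∀ n m, aeval A (f m) * (∫ t, star ((f m).eval (σ t)) ^ n • S t ∂μ) =
      (∫ t, star ((f m).eval (σ t)) ^ n • S t ∂μ) * aeval A (f m) := by
    intro n m
    have hint : Integrable (fun t => star ((f m).eval (σ t)) ^ n • S t) μ := by
      apply hwi
      · exact (hmeass (f m)).pow_const n
      · intro t
        rw [norm_pow, norm_star]
        exact pow_le_one₀ (norm_nonneg _) (hfF m t)
    have e1 : aeval A (f m) * (∫ t, star ((f m).eval (σ t)) ^ n • S t ∂μ) =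
        ∫ t, aeval A (f m) * (star ((f m).eval (σ t)) ^ n • S t) ∂μ :=
      ((ContinuousLinearMap.mul ℂ (H →L[ℂ] H) (aeval A (f m))).integral_comp_comm hint).symm
    have e2 : (∫ t, star ((f m).eval (σ t)) ^ n • S t ∂μ) * aeval A (f m) =
        ∫ t, (star ((f m).eval (σ t)) ^ n • S t) * aeval A (f m) ∂μ :=
      (((ContinuousLinearMap.mul ℂ (H →L[ℂ] H)).flip (aeval A (f m))).integral_comp_comm hint).symm
    rw [e1, e2]
    congr 1
    funext t
    rw [mul_smul_comm, smul_mul_assoc, commute_aeval (hcomm t)]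
  have hcommL : ∀ n, T * G n = G n * T := by
    intro n
    have h1 := hT.mul (hG n)
    have h2 := (hG n).mul hT
    have h3 : (fun m => aeval A (f m) * ∫ t, star ((f m).eval (σ t)) ^ n • S t ∂μ) =
        fun m => (∫ t, star ((f m).eval (σ t)) ^ n • S t ∂μ) * aeval A (f m) :=
      funext fun m => hcommG n m
    rw [h3] at h1
    exact tendsto_nhds_unique h1 h2
  have hTpb : ∀ n, ‖T ^ n‖ ≤ Cs * L := by
    intro n
    refine le_of_tendsto' (hT.pow n).norm fun m => ?_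
    rw [← hTpow n m]
    exact hwb _ (hpow _ (hfF m) n)
  have hGbL : ∀ n, ‖G n‖ ≤ Cs * L := fun n => le_of_tendsto' (hG n).norm fun m => hGb n m
  have hlbL : ∀ n, ‖lam n‖ ≤ 1 * L := fun n => le_of_tendsto' (hlam n).norm fun m => hlb n m
  have hCL : 0 ≤ Cs * L := (norm_nonneg _).trans (hGbL 0)
  have hpos : ∀ k, 1 ≤ k → ∀ u0 u1 u2 s0 s1 : H, 0 ≤ form T G lam c L k u0 u1 u2 s0 s1 := by
    intro k _ u0 u1 u2 s0 s1
    have hap : ∀ {M : ℕ → H →L[ℂ] H} {N : H →L[ℂ] H}, Tendsto M U (𝓝 N) → ∀ v : H,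
        Tendsto (fun m => M m v) U (𝓝 (N v)) := by
      intro M N hM v
      exact ((ContinuousLinearMap.apply ℂ H v).continuous.tendsto N).comp hM
    have hin : ∀ {M : ℕ → H} {N : H}, Tendsto M U (𝓝 N) → ∀ v : H,
        Tendsto (fun m => (inner ℂ v (M m)).re) U (𝓝 (inner ℂ v N).re) := by
      intro M N hM v
      exact (Complex.continuous_re.tendsto _).comp (tendsto_const_nhds.inner hM)
    have hsc : ∀ {M : ℕ → ℂ} {N : ℂ}, Tendsto M U (𝓝 N) → ∀ a : ℂ,
        Tendsto (fun m => (M m * a).re) U (𝓝 (N * a).re) := by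
      intro M N hM a
      exact (Complex.continuous_re.tendsto _).comp (hM.mul_const a)
    have hlim : Tendsto (fun m => form (aeval A (f m))
        (fun n => ∫ t, star ((f m).eval (σ t)) ^ n • S t ∂μ)
        (fun n => ∫ t, (f m).eval (σ t) ^ n ∂μ) c L k u0 u1 u2 s0 s1) U
        (𝓝 (form T G lam c L k u0 u1 u2 s0 s1)) := by
      unfold form
      refine Tendsto.add (Tendsto.sub (Tendsto.sub (Tendsto.sub (Tendsto.const_mul _ ?_) ?_)
        (Tendsto.const_mul _ ?_)) (Tendsto.const_mul _ ?_)) ?_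
      · exact ((((((tendsto_const_nhds.add (hin (hap hT u1) u0)).add
          (hin (hap (hT.pow (k + 1)) u2) u0)).add (hin (hap (hT.pow k) u2) u1)).add
          (hin (hap (hG 1) u0) u1)).add (hin (hap (hG (k + 1)) u0) u2)).add
          (hin (hap (hG k) u1) u2))
      · exact tendsto_const_nhds
      · exact ((hsc (hlam 1) _).add (hsc (hlam (k + 1)) _)).add (hsc (hlam k) _)
      · exact (hin ((tendsto_const_nhds.add (hap hT u1)).add (hap (hT.pow (k + 1)) u2)) s0).add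
          (hin (((hap (hG 1) u0).add tendsto_const_nhds).add (hap (hT.pow k) u2)) s1)
      · exact tendsto_const_nhds.add (Tendsto.const_mul _ (hsc (hlam 1) _))
    refine ge_of_tendsto' hlim fun m => ?_
    refine form_nonneg S (fun t => (f m).eval (σ t)) c hS (hfF m) (aeval A (f m)) _ _ ?_ ?_ ?_
      (fun n => hTpow n m) (fun n => rfl) (fun n => rfl) k u0 u1 u2 s0 s1
    · intro n
      exact hwi _ ((hmeas (f m)).pow_const n) (hpow _ (hfF m) n)
    · intro n
      apply hwi _ ((hmeass (f m)).pow_const n)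
      intro t
      rw [norm_pow, norm_star]
      exact pow_le_one₀ (norm_nonneg _) (hfF m t)
    · intro n
      exact hwz _ ((hmeas (f m)).pow_const n) (hpow _ (hfF m) n)
  have hvar : ∀ a : ℂ, ‖a‖ ≤ 1 →
      ‖(T - a • (1 : H →L[ℂ] H)) * ((1 : H →L[ℂ] H) + star a • T)‖ ≤ K * (1 + ‖a‖ ^ 2) := by
    intro a ha
    have h1 : Tendsto (fun m => ‖(aeval A (f m) - a • (1 : H →L[ℂ] H)) *
        ((1 : H →L[ℂ] H) + star a • aeval A (f m))‖) U
        (𝓝 ‖(T - a • (1 : H →L[ℂ] H)) * ((1 : H →L[ℂ] H) + star a • T)‖) :=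
      ((hT.sub_const _).mul ((hT.const_smul (star a)).const_add _)).norm
    refine le_of_tendsto' h1 fun m => ?_
    have hpos1 : 0 < 1 + ‖a‖ ^ 2 := by positivity
    set r : ℂ := (((1 + ‖a‖ ^ 2)⁻¹ : ℝ) : ℂ) with hr
    have hrn : ‖r‖ = (1 + ‖a‖ ^ 2)⁻¹ := by
      rw [hr, Complex.norm_real, Real.norm_of_nonneg (by positivity)]
    have hF : C r * ((f m - C a) * (1 + C (star a) * f m)) ∈ Fam := by
      intro t
      simp only [eval_mul, eval_sub, eval_add, eval_C, eval_one]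
      rw [norm_mul, hrn, inv_mul_le_iff₀ hpos1, mul_one]
      exact moebius_bound _ _ (hfF m t) ha
    have h2 := hle _ hF
    have h3 : aeval A (C r * ((f m - C a) * (1 + C (star a) * f m))) =
        r • ((aeval A (f m) - a • (1 : H →L[ℂ] H)) *
        ((1 : H →L[ℂ] H) + star a • aeval A (f m))) := by
      simp only [map_mul, map_sub, map_add, aeval_C, map_one, Algebra.algebraMap_eq_smul_one,
        smul_mul_assoc, one_mul]
    rw [h3, norm_smul, hrn, inv_mul_le_iff₀ hpos1] at h2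
    linarith
  have hK0 : 0 < K := by linarith
  obtain ⟨x, y, hx, hy, hTx, hTy⟩ := exists_pair T (by rw [hTK]; exact hK0)
  rw [hTK] at hTx hTy
  have hxy := pair_orth T K hK1 x y hx hy hTx hTy hvar
  refine core_q T G lam K c L (max (Cs * L * (Cs * L)) (1 * L * (Cs * L))) x y hc0 hc1 hK0 hK2 hL0
    hx hy hTx hTy hxy hcommL ?_ ?_ hpos
  · intro k
    refine le_trans ?_ (le_max_left _ _)
    exact (norm_mul_le _ _).trans (mul_le_mul (hTpb k) (hGbL k) (norm_nonneg _) hCL)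
  · intro k
    refine le_trans ?_ (le_max_right _ _)
    exact mul_le_mul (hlbL k) (hTpb k) (norm_nonneg _) (by positivity)

end Pool.Agent.T6.H68.QNR
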