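import Pool.Agent.T6.H68.QNR.Contour

set_option autoImplicit false

open MeasureTheory Set Filter Topology Complex Polynomial

namespace Pool.Agent.T6.H68.QNR

/-- scalar data of the contour -/
structure Ctr (q : ℝ) (σ w : ℝ → ℂ) (κ : ℝ → ℝ) (N : Set ℝ) (ρ1 κ1 : ℝ) : Prop where
  q0 : 0 < q
  q1 : q < 1
  σc : Continuous σ
  σ0 : ∀ φ, σ φ ≠ 0
  wm : Measurable w
  κm : Measurable κ
  κ0 : ∀ φ, 0 ≤ κ φ
  κb : ∀ φ, κ φ ≤ κ1
  ne : ∀ φ, σ φ ≠ w φ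
  wb : ∀ φ, ‖w φ‖ ≤ q * ‖σ φ - w φ‖
  rb : ∀ φ, ‖σ φ - w φ‖ ≤ ρ1
  cnt : N.Countable
  der : ∀ φ, φ ∉ N → HasDerivAt σ (I * (κ φ : ℂ) * (σ φ - w φ)) φ
  per : σ (2 * Real.pi) = σ 0
  log : (∫ φ in (0 : ℝ)..(2 * Real.pi), I * (κ φ : ℂ) * (σ φ - w φ) * (σ φ)⁻¹) =
    2 * Real.pi * I

variable {H : Type*} [NormedAddCommGroup H] [InnerProductSpace ℂ H] [CompleteSpace H]

/-- `1 - A/σ` -/
noncomputable def Bf (A : H →L[ℂ] H) (σ : ℝ → ℂ) (φ : ℝ) : H →L[ℂ] H := 1 - (σ φ)⁻¹ • A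

/-- `(1 - A/σ)⁻¹` -/
noncomputable def Kf (A : H →L[ℂ] H) (σ : ℝ → ℂ) (φ : ℝ) : H →L[ℂ] H := Ring.inverse (Bf A σ φ)

/-- `(σ - w)(σ - A)⁻¹` -/
noncomputable def Sf (A : H →L[ℂ] H) (σ w : ℝ → ℂ) (φ : ℝ) : H →L[ℂ] H :=
  ((σ φ - w φ) * (σ φ)⁻¹) • Kf A σ φ

variable {q : ℝ} {σ w : ℝ → ℂ} {κ : ℝ → ℝ} {N : Set ℝ} {ρ1 κ1 : ℝ} {A : H →L[ℂ] H}

theorem seg_unit (h : Ctr q σ w κ N ρ1 κ1)
    (hA : ∀ φ, ‖A - w φ • (1 : H →L[ℂ] H)‖ ≤ q * ‖σ φ - w φ‖) (t : ℝ) (ht : t ∈ Icc (0 : ℝ) 1)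
    (φ : ℝ) : IsUnit ((1 - t) • (1 : H →L[ℂ] H) + t • Bf A σ φ) :=
  unit_aux A q h.q1 (σ φ) (w φ) (h.ne φ) (hA φ) (h.wb φ) (h.σ0 φ) t ht

theorem Bf_unit (h : Ctr q σ w κ N ρ1 κ1)
    (hA : ∀ φ, ‖A - w φ • (1 : H →L[ℂ] H)‖ ≤ q * ‖σ φ - w φ‖) (φ : ℝ) : IsUnit (Bf A σ φ) := by
  have := seg_unit h hA 1 (by simp) φ
  simpa using this

theorem Bf_Kf (h : Ctr q σ w κ N ρ1 κ1)
    (hA : ∀ φ, ‖A - w φ • (1 : H →L[ℂ] H)‖ ≤ q * ‖σ φ - w φ‖) (φ : ℝ) :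
    Bf A σ φ * Kf A σ φ = 1 := Ring.mul_inverse_cancel _ (Bf_unit h hA φ)

theorem Kf_Bf (h : Ctr q σ w κ N ρ1 κ1)
    (hA : ∀ φ, ‖A - w φ • (1 : H →L[ℂ] H)‖ ≤ q * ‖σ φ - w φ‖) (φ : ℝ) :
    Kf A σ φ * Bf A σ φ = 1 := Ring.inverse_mul_cancel _ (Bf_unit h hA φ)

omit [CompleteSpace H] in
theorem Bf_cont (h : Ctr q σ w κ N ρ1 κ1) : Continuous (Bf A σ) := by
  have h1 : Continuous (fun φ => (σ φ)⁻¹) := h.σc.inv₀ h.σ0
  unfold Bf
  fun_prop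

theorem Kf_cont (h : Ctr q σ w κ N ρ1 κ1)
    (hA : ∀ φ, ‖A - w φ • (1 : H →L[ℂ] H)‖ ≤ q * ‖σ φ - w φ‖) : Continuous (Kf A σ) := by
  rw [continuous_iff_continuousAt]
  intro φ
  obtain ⟨u, hu⟩ := Bf_unit h hA φ
  have h1 : ContinuousAt Ring.inverse (Bf A σ φ) := by
    have := NormedRing.inverse_continuousAt u
    rw [hu] at this
    exact this
  exact h1.comp (Bf_cont h).continuousAt

omit [CompleteSpace H] in
theorem Bf_comm (φ : ℝ) : A * Bf A σ φ = Bf A σ φ * A := by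
  unfold Bf
  rw [mul_sub, sub_mul, mul_smul_comm, smul_mul_assoc, mul_one, one_mul]

theorem Kf_comm (h : Ctr q σ w κ N ρ1 κ1)
    (hA : ∀ φ, ‖A - w φ • (1 : H →L[ℂ] H)‖ ≤ q * ‖σ φ - w φ‖) (φ : ℝ) :
    A * Kf A σ φ = Kf A σ φ * A := by
  calc A * Kf A σ φ = (Kf A σ φ * Bf A σ φ) * (A * Kf A σ φ) := by rw [Kf_Bf h hA, one_mul]
    _ = Kf A σ φ * (Bf A σ φ * A) * Kf A σ φ := by simp only [mul_assoc]
    _ = Kf A σ φ * (A * Bf A σ φ) * Kf A σ φ := by rw [Bf_comm]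
    _ = Kf A σ φ * A * (Bf A σ φ * Kf A σ φ) := by simp only [mul_assoc]
    _ = Kf A σ φ * A := by rw [Bf_Kf h hA, mul_one]

theorem Kf_eq (h : Ctr q σ w κ N ρ1 κ1)
    (hA : ∀ φ, ‖A - w φ • (1 : H →L[ℂ] H)‖ ≤ q * ‖σ φ - w φ‖) (φ : ℝ) :
    Kf A σ φ = 1 + (σ φ)⁻¹ • (A * Kf A σ φ) := by
  have h1 := Bf_Kf h hA φ
  have h2 : Bf A σ φ * Kf A σ φ = Kf A σ φ - (σ φ)⁻¹ • (A * Kf A σ φ) := by
    unfold Bf
    rw [sub_mul, one_mul, smul_mul_assoc]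
  rw [h2] at h1
  rw [← h1]
  abel

theorem Sf_inv (h : Ctr q σ w κ N ρ1 κ1)
    (hA : ∀ φ, ‖A - w φ • (1 : H →L[ℂ] H)‖ ≤ q * ‖σ φ - w φ‖) (φ : ℝ) :
    (1 - (σ φ - w φ)⁻¹ • (A - w φ • (1 : H →L[ℂ] H))) * Sf A σ w φ = 1 := by
  have hs0 := h.σ0 φ
  have hsw : σ φ - w φ ≠ 0 := sub_ne_zero.mpr (h.ne φ)
  have e : (1 - (σ φ - w φ)⁻¹ • (A - w φ • (1 : H →L[ℂ] H))) =
      ((σ φ - w φ)⁻¹ * σ φ) • Bf A σ φ := by
    have e1 : (σ φ - w φ)⁻¹ * σ φ * (σ φ)⁻¹ = (σ φ - w φ)⁻¹ := by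
      rw [mul_assoc, mul_inv_cancel₀ hs0, mul_one]
    have e2 : (σ φ - w φ)⁻¹ * σ φ = 1 + (σ φ - w φ)⁻¹ * w φ := by
      field_simp
      ring
    unfold Bf
    rw [smul_sub ((σ φ - w φ)⁻¹ * σ φ), smul_smul ((σ φ - w φ)⁻¹ * σ φ), e1, e2]
    module
  rw [e]
  unfold Sf
  rw [smul_mul_smul_comm, Bf_Kf h hA]
  have : (σ φ - w φ)⁻¹ * σ φ * ((σ φ - w φ) * (σ φ)⁻¹) = 1 := by
    field_simp
  rw [this, one_smul]

omit [CompleteSpace H] in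
theorem E_norm (h : Ctr q σ w κ N ρ1 κ1)
    (hA : ∀ φ, ‖A - w φ • (1 : H →L[ℂ] H)‖ ≤ q * ‖σ φ - w φ‖) (φ : ℝ) :
    ‖(σ φ - w φ)⁻¹ • (A - w φ • (1 : H →L[ℂ] H))‖ ≤ q := by
  have hsw : σ φ - w φ ≠ 0 := sub_ne_zero.mpr (h.ne φ)
  have hn : 0 < ‖σ φ - w φ‖ := norm_pos_iff.mpr hsw
  rw [norm_smul, norm_inv, inv_mul_le_iff₀ hn, mul_comm]
  exact hA φ

theorem Kf_smeas (h : Ctr q σ w κ N ρ1 κ1)
    (hA : ∀ φ, ‖A - w φ • (1 : H →L[ℂ] H)‖ ≤ q * ‖σ φ - w φ‖) : StronglyMeasurable (Kf A σ) :=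
  (Kf_cont h hA).stronglyMeasurable

theorem Sf_smeas (h : Ctr q σ w κ N ρ1 κ1)
    (hA : ∀ φ, ‖A - w φ • (1 : H →L[ℂ] H)‖ ≤ q * ‖σ φ - w φ‖) : StronglyMeasurable (Sf A σ w) := by
  have h1 : Measurable (fun φ => (σ φ - w φ) * (σ φ)⁻¹) :=
    (h.σc.measurable.sub h.wm).mul h.σc.measurable.inv
  exact h1.stronglyMeasurable.smul (Kf_smeas h hA)

theorem Sf_bound (h : Ctr q σ w κ N ρ1 κ1)
    (hA : ∀ φ, ‖A - w φ • (1 : H →L[ℂ] H)‖ ≤ q * ‖σ φ - w φ‖) (φ : ℝ) :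
    ‖Sf A σ w φ‖ ≤ 1 / (1 - q) := by
  have hq0 := h.q0
  have hq1 := h.q1
  exact (pointwise_ineq _ _ q (√(1 - q ^ 2)) hq1 (Real.sq_sqrt (by nlinarith)) (E_norm h hA φ)
    (Sf_inv h hA φ)).1

/-- weighted resolvent -/
noncomputable def Xf (A : H →L[ℂ] H) (σ w : ℝ → ℂ) (κ : ℝ → ℝ) (φ : ℝ) : H →L[ℂ] H :=
  ((κ φ / (2 * Real.pi) : ℝ) : ℂ) • Sf A σ w φ

theorem Xf_smeas (h : Ctr q σ w κ N ρ1 κ1)
    (hA : ∀ φ, ‖A - w φ • (1 : H →L[ℂ] H)‖ ≤ q * ‖σ φ - w φ‖) : StronglyMeasurable (Xf A σ w κ) := by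
  have h1 : Measurable (fun φ => ((κ φ / (2 * Real.pi) : ℝ) : ℂ)) :=
    Complex.measurable_ofReal.comp (h.κm.div_const _)
  exact h1.stronglyMeasurable.smul (Sf_smeas h hA)

theorem Xf_bound (h : Ctr q σ w κ N ρ1 κ1)
    (hA : ∀ φ, ‖A - w φ • (1 : H →L[ℂ] H)‖ ≤ q * ‖σ φ - w φ‖) (φ : ℝ) :
    ‖Xf A σ w κ φ‖ ≤ κ1 / (2 * Real.pi) * (1 / (1 - q)) := by
  unfold Xf
  have h1 := Sf_bound h hA φ
  have h2 := h.κ0 φ
  have h3 := h.κb φ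
  have hp : 0 < 2 * Real.pi := by positivity
  rw [norm_smul, Complex.norm_real, Real.norm_of_nonneg (by positivity)]
  have h4 : 0 ≤ κ1 := h2.trans h3
  gcongr

/-- integrability of continuous scalar multiples -/
theorem Xf_int (h : Ctr q σ w κ N ρ1 κ1)
    (hA : ∀ φ, ‖A - w φ • (1 : H →L[ℂ] H)‖ ≤ q * ‖σ φ - w φ‖) (g : ℝ → ℂ) (hg : Continuous g) :
    IntervalIntegrable (fun φ => g φ • Xf A σ w κ φ) volume 0 (2 * Real.pi) := by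
  have hp : (0 : ℝ) ≤ 2 * Real.pi := by positivity
  obtain ⟨C, hC⟩ := (isCompact_Icc (a := (0 : ℝ)) (b := 2 * Real.pi)).exists_bound_of_continuousOn
    hg.continuousOn
  rw [intervalIntegrable_iff_integrableOn_Icc_of_le hp]
  refine Integrable.of_bound ((hg.stronglyMeasurable.smul (Xf_smeas h hA)).aestronglyMeasurable)
    (C * (κ1 / (2 * Real.pi) * (1 / (1 - q)))) ?_
  filter_upwards [ae_restrict_mem measurableSet_Icc] with φ hφ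
  rw [norm_smul]
  have h1 := hC φ hφ
  have h2 := Xf_bound h hA φ
  have h3 : 0 ≤ C := (norm_nonneg _).trans h1
  gcongr

/-- the derivative as a function -/
noncomputable def ds (σ w : ℝ → ℂ) (κ : ℝ → ℝ) (φ : ℝ) : ℂ := I * (κ φ : ℂ) * (σ φ - w φ)

theorem ds_meas (h : Ctr q σ w κ N ρ1 κ1) : Measurable (ds σ w κ) :=
  (measurable_const.mul (Complex.measurable_ofReal.comp h.κm)).mul (h.σc.measurable.sub h.wm)

theorem ds_bound (h : Ctr q σ w κ N ρ1 κ1) (φ : ℝ) : ‖ds σ w κ φ‖ ≤ κ1 * ρ1 := by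
  unfold ds
  have h2 := h.κ0 φ
  have h3 := h.κb φ
  have h4 : 0 ≤ κ1 := h2.trans h3
  rw [norm_mul, norm_mul, Complex.norm_I, one_mul, Complex.norm_real, Real.norm_of_nonneg h2]
  exact mul_le_mul h3 (h.rb φ) (norm_nonneg _) h4

theorem ds_int (h : Ctr q σ w κ N ρ1 κ1) (g : ℝ → ℂ) (hg : Continuous g) :
    IntervalIntegrable (fun φ => g φ * ds σ w κ φ) volume 0 (2 * Real.pi) := by
  have hp : (0 : ℝ) ≤ 2 * Real.pi := by positivity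
  obtain ⟨C, hC⟩ := (isCompact_Icc (a := (0 : ℝ)) (b := 2 * Real.pi)).exists_bound_of_continuousOn
    hg.continuousOn
  rw [intervalIntegrable_iff_integrableOn_Icc_of_le hp]
  refine Integrable.of_bound ((hg.measurable.mul (ds_meas h)).aestronglyMeasurable)
    (C * (κ1 * ρ1)) ?_
  filter_upwards [ae_restrict_mem measurableSet_Icc] with φ hφ
  rw [norm_mul]
  have h1 := hC φ hφ
  have h2 := ds_bound h φ
  have h3 : 0 ≤ C := (norm_nonneg _).trans h1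
  gcongr

theorem pow_int (h : Ctr q σ w κ N ρ1 κ1) (n : ℕ) :
    ∫ φ in (0 : ℝ)..(2 * Real.pi), σ φ ^ n * ds σ w κ φ = 0 := by
  have hp : (0 : ℝ) ≤ 2 * Real.pi := by positivity
  have hn : (n : ℂ) + 1 ≠ 0 := Nat.cast_add_one_ne_zero n
  have hder : ∀ φ, φ ∉ N → HasDerivAt (fun φ => σ φ ^ (n + 1) / ((n : ℂ) + 1))
      (σ φ ^ n * ds σ w κ φ) φ := by
    intro φ hφ
    have h1 := ((h.der φ hφ).pow (n + 1)).div_const ((n : ℂ) + 1)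
    refine h1.congr_deriv ?_
    unfold ds
    rw [Nat.add_sub_cancel]
    push_cast
    field_simp
  have hcont : Continuous (fun φ => σ φ ^ (n + 1) / ((n : ℂ) + 1)) :=
    (h.σc.pow (n + 1)).div_const _
  rw [integral_eq_of_hasDerivAt_off_countable_of_le _ _ hp h.cnt hcont.continuousOn
    (fun φ hφ => hder φ hφ.2) (ds_int h _ (h.σc.pow n)), h.per, sub_self]

omit [CompleteSpace H] in
theorem Xf_eq (h : Ctr q σ w κ N ρ1 κ1) (φ : ℝ) :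
    σ φ • Xf A σ w κ φ = ((2 * Real.pi * I)⁻¹ * ds σ w κ φ) • Kf A σ φ := by
  have hpi : (Real.pi : ℂ) ≠ 0 := by exact_mod_cast Real.pi_ne_zero
  unfold Xf Sf ds
  rw [smul_smul, smul_smul]
  congr 1
  have hs0 := h.σ0 φ
  push_cast
  have hI : I ≠ 0 := Complex.I_ne_zero
  field_simp

/-- zeroth moment -/
theorem mom0 (h : Ctr q σ w κ N ρ1 κ1)
    (hA : ∀ φ, ‖A - w φ • (1 : H →L[ℂ] H)‖ ≤ q * ‖σ φ - w φ‖) :
    ∫ φ in (0 : ℝ)..(2 * Real.pi), Xf A σ w κ φ = 1 := by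
  have hp : (0 : ℝ) ≤ 2 * Real.pi := by positivity
  have hpi : (Real.pi : ℂ) ≠ 0 := by exact_mod_cast Real.pi_ne_zero
  have hI : I ≠ 0 := Complex.I_ne_zero
  set B' : ℝ → H →L[ℂ] H := fun φ => (ds σ w κ φ * ((σ φ)⁻¹) ^ 2) • A with hB'
  have hinvc : Continuous (fun φ => (σ φ)⁻¹) := h.σc.inv₀ h.σ0
  have hder : ∀ φ, φ ∉ N → HasDerivAt (Bf A σ) (B' φ) φ := by
    intro φ hφ
    have h1 := (((h.der φ hφ).inv (h.σ0 φ)).smul_const A).const_sub (1 : H →L[ℂ] H)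
    refine h1.congr_deriv ?_
    rw [hB']
    unfold ds
    simp only
    rw [← neg_smul]
    congr 1
    have hs0 := h.σ0 φ
    field_simp
  have hB'm : StronglyMeasurable B' :=
    ((ds_meas h).mul (hinvc.measurable.pow_const 2)).stronglyMeasurable.smul_const A
  obtain ⟨C, hC⟩ := (isCompact_Icc (a := (0 : ℝ)) (b := 2 * Real.pi)).exists_bound_of_continuousOn
    hinvc.continuousOn
  have hB'b : ∀ φ ∈ Icc (0 : ℝ) (2 * Real.pi), ‖B' φ‖ ≤ κ1 * ρ1 * C ^ 2 * ‖A‖ := by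
    intro φ hφ
    rw [hB']
    simp only
    rw [norm_smul, norm_mul, norm_pow]
    have h1 := hC φ hφ
    have h2 := ds_bound h φ
    have h3 : 0 ≤ κ1 * ρ1 := (norm_nonneg _).trans h2
    gcongr
  have hper : Bf A σ (2 * Real.pi) = Bf A σ 0 := by
    unfold Bf
    rw [h.per]
  have hcomm : ∀ φ, Commute (B' φ) (Bf A σ φ) := by
    intro φ
    have h1 : Commute A (Bf A σ φ) := Bf_comm φ
    exact h1.smul_left _
  have hlog := logder_zero (Bf A σ) B' 0 (2 * Real.pi) hp h.cnt (Bf_cont h) hder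
    hB'm _ hB'b hper (fun t ht φ => seg_unit h hA t ht φ) hcomm
  have hX : ∀ φ, Xf A σ w κ φ = (2 * Real.pi * I)⁻¹ •
      ((ds σ w κ φ * (σ φ)⁻¹) • (1 : H →L[ℂ] H) + B' φ * Ring.inverse (Bf A σ φ)) := by
    intro φ
    have hs0 := h.σ0 φ
    have h1 : Xf A σ w κ φ = (σ φ)⁻¹ • (σ φ • Xf A σ w κ φ) := by
      rw [smul_smul, inv_mul_cancel₀ hs0, one_smul]
    have h2 : B' φ * Ring.inverse (Bf A σ φ) =
        (ds σ w κ φ * ((σ φ)⁻¹) ^ 2) • (A * Kf A σ φ) := by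
      rw [hB']
      simp only
      rw [smul_mul_assoc]
      rfl
    rw [h1, Xf_eq h, h2]
    conv_lhs => rw [Kf_eq h hA φ]
    module
  rw [intervalIntegral.integral_congr (fun φ _ => hX φ), intervalIntegral.integral_smul]
  have i1 : IntervalIntegrable (fun φ => (ds σ w κ φ * (σ φ)⁻¹) • (1 : H →L[ℂ] H)) volume 0
      (2 * Real.pi) := by
    have h1 := ds_int h _ hinvc
    have h2 : IntervalIntegrable (fun φ => ds σ w κ φ * (σ φ)⁻¹) volume 0 (2 * Real.pi) := by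
      refine h1.congr ?_
      exact fun φ _ => mul_comm _ _
    exact ⟨h2.1.smul_const (1 : H →L[ℂ] H), h2.2.smul_const (1 : H →L[ℂ] H)⟩
  have i2 : IntervalIntegrable (fun φ => B' φ * Ring.inverse (Bf A σ φ)) volume 0
      (2 * Real.pi) := by
    obtain ⟨C2, hC2⟩ := (isCompact_Icc (a := (0 : ℝ)) (b := 2 * Real.pi)).exists_bound_of_continuousOn
      (Kf_cont h hA).continuousOn
    rw [intervalIntegrable_iff_integrableOn_Icc_of_le hp]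
    refine Integrable.of_bound (hB'm.mul (Kf_smeas h hA)).aestronglyMeasurable
      (κ1 * ρ1 * C ^ 2 * ‖A‖ * C2) ?_
    filter_upwards [ae_restrict_mem measurableSet_Icc] with φ hφ
    have h1 := hB'b φ hφ
    have h2 := hC2 φ hφ
    exact (norm_mul_le _ _).trans (mul_le_mul h1 h2 (norm_nonneg _) ((norm_nonneg _).trans h1))
  rw [intervalIntegral.integral_add i1 i2, hlog, add_zero, intervalIntegral.integral_smul_const]
  have h3 : ∫ φ in (0 : ℝ)..(2 * Real.pi), ds σ w κ φ * (σ φ)⁻¹ = 2 * Real.pi * I := h.log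
  rw [h3, smul_smul, inv_mul_cancel₀, one_smul]
  simp [hpi, hI]

/-- all moments -/
theorem mom (h : Ctr q σ w κ N ρ1 κ1)
    (hA : ∀ φ, ‖A - w φ • (1 : H →L[ℂ] H)‖ ≤ q * ‖σ φ - w φ‖) (n : ℕ) :
    ∫ φ in (0 : ℝ)..(2 * Real.pi), σ φ ^ n • Xf A σ w κ φ = A ^ n := by
  induction n with
  | zero => simpa using mom0 h hA
  | succ n ih =>
    have e1 : ∀ φ, σ φ ^ (n + 1) • Xf A σ w κ φ =
        ((2 * Real.pi * I)⁻¹ * (σ φ ^ n * ds σ w κ φ)) • (1 : H →L[ℂ] H)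
          + A * (σ φ ^ n • Xf A σ w κ φ) := by
      intro φ
      have hs0 := h.σ0 φ
      have h1 : σ φ ^ (n + 1) • Xf A σ w κ φ = σ φ ^ n • (σ φ • Xf A σ w κ φ) := by
        rw [smul_smul, pow_succ]
      have h2 : Xf A σ w κ φ = (σ φ)⁻¹ • (((2 * Real.pi * I)⁻¹ * ds σ w κ φ) • Kf A σ φ) := by
        rw [← Xf_eq h, smul_smul, inv_mul_cancel₀ hs0, one_smul]
      rw [h1, Xf_eq h]
      conv_lhs => rw [Kf_eq h hA φ]
      rw [h2, mul_smul_comm, mul_smul_comm, mul_smul_comm]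
      module
    have i1 : IntervalIntegrable (fun φ => ((2 * Real.pi * I)⁻¹ * (σ φ ^ n * ds σ w κ φ)) •
        (1 : H →L[ℂ] H)) volume 0 (2 * Real.pi) := by
      have h1 : IntervalIntegrable (fun φ => (2 * Real.pi * I)⁻¹ * (σ φ ^ n * ds σ w κ φ)) volume
          0 (2 * Real.pi) := (ds_int h (fun φ => σ φ ^ n) (h.σc.pow n)).const_mul _
      exact ⟨h1.1.smul_const _, h1.2.smul_const _⟩
    have i2 : IntervalIntegrable (fun φ => σ φ ^ n • Xf A σ w κ φ) volume 0 (2 * Real.pi) :=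
      Xf_int h hA (fun φ => σ φ ^ n) (h.σc.pow n)
    have i3 : IntervalIntegrable (fun φ => A * (σ φ ^ n • Xf A σ w κ φ)) volume 0
        (2 * Real.pi) :=
      ⟨(ContinuousLinearMap.mul ℂ (H →L[ℂ] H) A).integrable_comp i2.1,
        (ContinuousLinearMap.mul ℂ (H →L[ℂ] H) A).integrable_comp i2.2⟩
    rw [intervalIntegral.integral_congr (fun φ _ => e1 φ), intervalIntegral.integral_add i1 i3]
    have e2 : ∫ φ in (0 : ℝ)..(2 * Real.pi), ((2 * Real.pi * I)⁻¹ * (σ φ ^ n * ds σ w κ φ)) •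
        (1 : H →L[ℂ] H) = 0 := by
      rw [intervalIntegral.integral_smul_const, intervalIntegral.integral_const_mul, pow_int h,
        mul_zero, zero_smul]
    have e3 : ∫ φ in (0 : ℝ)..(2 * Real.pi), A * (σ φ ^ n • Xf A σ w κ φ) = A * A ^ n := by
      rw [← ih]
      exact ContinuousLinearMap.intervalIntegral_comp_comm
        (ContinuousLinearMap.mul ℂ (H →L[ℂ] H) A) i2
    rw [e2, e3, zero_add, pow_succ']

theorem mom_poly (h : Ctr q σ w κ N ρ1 κ1)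
    (hA : ∀ φ, ‖A - w φ • (1 : H →L[ℂ] H)‖ ≤ q * ‖σ φ - w φ‖) (f : ℂ[X]) :
    ∫ φ in (0 : ℝ)..(2 * Real.pi), f.eval (σ φ) • Xf A σ w κ φ = aeval A f := by
  induction f using Polynomial.induction_on' with
  | add p r hp hr =>
    simp only [eval_add, add_smul, map_add]
    rw [intervalIntegral.integral_add (Xf_int h hA (fun φ => p.eval (σ φ)) (p.continuous.comp h.σc))
      (Xf_int h hA (fun φ => r.eval (σ φ)) (r.continuous.comp h.σc)), hp, hr]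
  | monomial n a =>
    simp only [eval_monomial, aeval_monomial, mul_smul]
    rw [intervalIntegral.integral_smul, mom h hA, Algebra.algebraMap_eq_smul_one,
      smul_mul_assoc, one_mul]

/-- the representing measure and field -/
theorem field_exists (h : Ctr q σ w κ N ρ1 κ1)
    (hA : ∀ φ, ‖A - w φ • (1 : H →L[ℂ] H)‖ ≤ q * ‖σ φ - w φ‖) :
    ∃ (μ : Measure ℝ), IsFiniteMeasure μ ∧ 
      (∀ f : ℂ[X], ∫ t, f.eval (σ t) • Sf A σ w t ∂μ = aeval A f) := by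
  have hp : (0 : ℝ) ≤ 2 * Real.pi := by positivity
  set ν : Measure ℝ := volume.restrict (Ioc 0 (2 * Real.pi)) with hν
  set g : ℝ → ℝ := fun φ => κ φ / (2 * Real.pi) with hg
  have hgm : Measurable g := h.κm.div_const _
  have hg0 : ∀ φ, 0 ≤ g φ := fun φ => div_nonneg (h.κ0 φ) hp
  have hgb : ∀ φ, ‖g φ‖ ≤ κ1 / (2 * Real.pi) := by
    intro φ
    rw [Real.norm_of_nonneg (hg0 φ)]
    have := h.κb φ
    rw [hg]
    simp only
    gcongr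
  have hgi : Integrable g ν := Integrable.of_bound hgm.aestronglyMeasurable _ (ae_of_all _ hgb)
  refine ⟨ν.withDensity fun φ => ENNReal.ofReal (g φ), isFiniteMeasure_withDensity_ofReal hgi.2, ?_⟩
  intro f
  rw [integral_withDensity_eq_integral_toReal_smul (by fun_prop)
    (ae_of_all _ fun φ => ENNReal.ofReal_lt_top)]
  rw [← mom_poly h hA f, intervalIntegral.integral_of_le hp]
  congr 1
  funext φ
  rw [ENNReal.toReal_ofReal (hg0 φ), ← Complex.coe_smul, smul_comm]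
  rfl

end Pool.Agent.T6.H68.QNR
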