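import Pool.Agent.T6.H68.QNR.Curve
import Pool.Agent.T6.H68.QNR.Moments
import Pool.Agent.T6.H68.QNR.Field

set_option autoImplicit false

open MeasureTheory Set Filter Topology Complex Polynomial

namespace Pool.Agent.T6.H68.QNR

theorem ctr_of_rad {J : Set (ℂ × ℝ)} {R : ℝ → ℝ} {w : ℝ → ℂ} {N : Set ℝ} (hR : Rad J R w N)
    (q ρ1 : ℝ) (hq0 : 0 < q) (hq1 : q < 1) (hρ0 : ∀ j ∈ J, 0 < j.2) (hρ1 : ∀ j ∈ J, j.2 ≤ ρ1)
    (hw : ∀ j ∈ J, ‖j.1‖ ≤ q * j.2) :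
    Ctr q (sg R) w (kap R w) N ρ1 (2 / √(1 - q ^ 2)) := by
  have hq2 : 0 < 1 - q ^ 2 := by nlinarith
  have hc0 : 0 < √(1 - q ^ 2) := Real.sqrt_pos.mpr hq2
  have hcsq : √(1 - q ^ 2) ^ 2 = 1 - q ^ 2 := Real.sq_sqrt hq2.le
  have hrp : ∀ φ, 0 < ‖dd R w φ‖ := fun φ => hρ0 _ (hR.mem φ)
  have hr1 : ∀ φ, ‖dd R w φ‖ ≤ ρ1 := fun φ => hρ1 _ (hR.mem φ)
  have hwn : ∀ φ, ‖w φ‖ ≤ q * ‖dd R w φ‖ := fun φ => hw _ (hR.mem φ)
  exact {
    q0 := hq0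
    q1 := hq1
    σc := sg_cont hR
    σ0 := sg_ne hR
    wm := hR.meas
    κm := kap_meas hR
    κ0 := fun φ => (kap_pos hR φ).le
    κb := fun φ => kap_le hR hc0 hq1 hcsq φ (hwn φ)
    ne := fun φ h => by
      have h1 := norm_sg_sub R w φ
      rw [h, sub_self, norm_zero] at h1
      exact (hrp φ).ne h1
    wb := fun φ => by rw [norm_sg_sub]; exact hwn φ
    rb := fun φ => by rw [norm_sg_sub]; exact hr1 φ
    cnt := hR.cnt
    der := fun φ hφ => sg_deriv hR φ hφ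
    per := sg_per hR
    log := log_int hR hc0 hq1 hcsq hwn ρ1 hr1 }

variable {H : Type*} [NormedAddCommGroup H] [InnerProductSpace ℂ H] [FiniteDimensional ℂ H]
  [CompleteSpace H]

theorem disc_bound0 [Nontrivial H] (A : H →L[ℂ] H) (q : ℝ) (hq0 : 0 < q) (hq1 : q < 1)
    (J : Finset (ℂ × ℝ)) (hne : J.Nonempty) (hρ : ∀ j ∈ J, 0 < j.2)
    (hw : ∀ j ∈ J, ‖j.1‖ ≤ q * j.2)
    (hA : ∀ j ∈ J, ‖A - j.1 • (1 : H →L[ℂ] H)‖ ≤ q * j.2) (p : ℂ[X])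
    (hp : ∀ z : ℂ, (∀ j ∈ J, ‖z - j.1‖ ≤ j.2) → ‖p.eval z‖ ≤ 1) :
    ‖aeval A p‖ ≤ max 1 (2 * √((1 - √(1 - q ^ 2)) / (1 + √(1 - q ^ 2)))) := by
  have hq2 : 0 < 1 - q ^ 2 := by nlinarith
  have hcsq : √(1 - q ^ 2) ^ 2 = 1 - q ^ 2 := Real.sq_sqrt hq2.le
  have hc1 : √(1 - q ^ 2) < 1 := by
    rw [Real.sqrt_lt' one_pos]
    nlinarith
  obtain ⟨R, w, N, hR⟩ := rad_exists J hne (fun j hj => by
    have h1 := hρ j hj
    have h2 := hw j hj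
    nlinarith)
  obtain ⟨jmax, hjmax, hmax⟩ := J.exists_max_image (fun j => j.2) hne
  have h := ctr_of_rad hR q jmax.2 hq0 hq1 (fun j hj => hρ j hj) (fun j hj => hmax j hj)
    (fun j hj => hw j hj)
  have hA' : ∀ φ, ‖A - w φ • (1 : H →L[ℂ] H)‖ ≤ q * ‖sg R φ - w φ‖ := by
    intro φ
    have e := norm_sg_sub R w φ
    have e2 : ‖A - w φ • (1 : H →L[ℂ] H)‖ ≤ q * ‖dd R w φ‖ :=
      hA (w φ, ‖dd R w φ‖) (hR.mem φ)
    rw [e]
    exact e2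
  obtain ⟨μ, hμ, hrep⟩ := field_exists h hA'
  refine field_bound μ A (sg R) (Sf A (sg R) w) (√(1 - q ^ 2)) (1 / (1 - q)) (Real.sqrt_nonneg _)
    hc1 h.σc.measurable (Sf_smeas h hA').aestronglyMeasurable (Sf_bound h hA') ?_ ?_ hrep p ?_
  · intro t
    exact (pointwise_ineq _ _ q (√(1 - q ^ 2)) hq1 hcsq (E_norm h hA' t) (Sf_inv h hA' t)).2
  · intro t
    unfold Sf
    rw [mul_smul_comm, smul_mul_assoc, Kf_comm h hA']
  · intro t
    exact hp _ fun j hj => sg_inside hR t j hj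

theorem disc_bound [Nontrivial H] (A : H →L[ℂ] H) (q : ℝ) (hq0 : 0 < q) (hq1 : q < 1)
    (J : Finset (ℂ × ℝ)) (hne : J.Nonempty) (hρ : ∀ j ∈ J, 0 < j.2) (z0 : ℂ)
    (hw : ∀ j ∈ J, ‖z0 - j.1‖ ≤ q * j.2)
    (hA : ∀ j ∈ J, ‖A - j.1 • (1 : H →L[ℂ] H)‖ ≤ q * j.2) (p : ℂ[X]) (M : ℝ) (hM : 0 < M)
    (hp : ∀ z : ℂ, (∀ j ∈ J, ‖z - j.1‖ ≤ j.2) → ‖p.eval z‖ ≤ M) :
    ‖aeval A p‖ ≤ max 1 (2 * √((1 - √(1 - q ^ 2)) / (1 + √(1 - q ^ 2)))) * M := by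
  classical
  set J' : Finset (ℂ × ℝ) := J.image fun j => (j.1 - z0, j.2) with hJ'
  set A' : H →L[ℂ] H := A - z0 • (1 : H →L[ℂ] H) with hA'
  set p' : ℂ[X] := C ((M : ℂ)⁻¹) * p.comp (X + C z0) with hp'
  have hMc : (M : ℂ) ≠ 0 := by exact_mod_cast hM.ne'
  have h1 := disc_bound0 A' q hq0 hq1 J' (hne.image _) (by
      intro j hj
      rw [hJ', Finset.mem_image] at hj
      obtain ⟨i, hi, rfl⟩ := hj
      exact hρ i hi) (by
      intro j hj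
      rw [hJ', Finset.mem_image] at hj
      obtain ⟨i, hi, rfl⟩ := hj
      have := hw i hi
      rw [norm_sub_rev] at this
      exact this) (by
      intro j hj
      rw [hJ', Finset.mem_image] at hj
      obtain ⟨i, hi, rfl⟩ := hj
      have e : A' - (i.1 - z0) • (1 : H →L[ℂ] H) = A - i.1 • (1 : H →L[ℂ] H) := by
        rw [hA', sub_smul, sub_sub_sub_cancel_right]
      simp only
      rw [e]
      exact hA i hi) p' (by
      intro z hz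
      rw [hp']
      simp only [eval_mul, eval_C, eval_comp, eval_add, eval_X]
      rw [norm_mul, norm_inv, Complex.norm_real, Real.norm_of_nonneg hM.le, inv_mul_le_iff₀ hM,
        mul_one]
      apply hp
      intro i hi
      have := hz (i.1 - z0, i.2) (by rw [hJ', Finset.mem_image]; exact ⟨i, hi, rfl⟩)
      simp only at this
      have e : z + z0 - i.1 = z - (i.1 - z0) := by ring
      rw [e]
      exact this)
  have h2 : aeval A' p' = (M : ℂ)⁻¹ • aeval A p := by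
    have h3 : aeval A' (X + C z0 : ℂ[X]) = A := by
      rw [map_add, aeval_X, aeval_C, Algebra.algebraMap_eq_smul_one, hA', sub_add_cancel]
    rw [hp', map_mul, aeval_C, Algebra.algebraMap_eq_smul_one, smul_mul_assoc, one_mul, aeval_comp,
      h3]
  rw [h2, norm_smul, norm_inv, Complex.norm_real, Real.norm_of_nonneg hM.le,
    inv_mul_le_iff₀ hM, mul_comm] at h1
  exact h1

end Pool.Agent.T6.H68.QNR
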