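import Pool.Agent.T6.H68.QNR.Pos

set_option autoImplicit false

open MeasureTheory Filter Topology Polynomial

namespace Pool.Agent.T6.H68.QNR

variable {H : Type*} [NormedAddCommGroup H] [InnerProductSpace ℂ H]

theorem ulim {E : Type*} [NormedAddCommGroup E] [ProperSpace E] (U : Ultrafilter ℕ) (a : ℕ → E)
    (B : ℝ) (h : ∀ m, ‖a m‖ ≤ B) : ∃ x, Tendsto a U (𝓝 x) := by
  have hc : IsCompact (Metric.closedBall (0 : E) B) := isCompact_closedBall 0 B
  have hle : (U.map a : Filter E) ≤ 𝓟 (Metric.closedBall (0 : E) B) := by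
    rw [le_principal_iff]
    simp only [Ultrafilter.coe_map, Filter.mem_map]
    refine Filter.univ_mem' fun m => ?_
    simp only [Set.mem_preimage, Metric.mem_closedBall, dist_zero_right]
    exact h m
  obtain ⟨x, _, hx⟩ := hc.ultrafilter_le_nhds (U.map a) hle
  exact ⟨x, hx⟩

variable [FiniteDimensional ℂ H] [CompleteSpace H]

omit [CompleteSpace H] in
theorem exists_max_vec [Nontrivial H] (T : H →L[ℂ] H) : ∃ x : H, ‖x‖ = 1 ∧ ‖T x‖ = ‖T‖ := by
  have : ProperSpace H := FiniteDimensional.proper ℂ H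
  have hc : IsCompact (Metric.sphere (0 : H) 1) := isCompact_sphere 0 1
  obtain ⟨x0, hx0⟩ := exists_norm_eq H (zero_le_one (α := ℝ))
  have hne : (Metric.sphere (0 : H) 1).Nonempty := ⟨x0, by simpa using hx0⟩
  obtain ⟨x, hx, hmax⟩ := hc.exists_isMaxOn hne (f := fun u => ‖T u‖)
    (by fun_prop)
  have hx1 : ‖x‖ = 1 := by simpa using hx
  refine ⟨x, hx1, le_antisymm ?_ ?_⟩
  · calc ‖T x‖ ≤ ‖T‖ * ‖x‖ := T.le_opNorm x
      _ = ‖T‖ := by rw [hx1, mul_one]
  · apply ContinuousLinearMap.opNorm_le_of_unit_norm (norm_nonneg _)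
    intro u hu
    exact hmax (by simpa using hu)

/-- extremal pair -/
theorem exists_pair [Nontrivial H] (T : H →L[ℂ] H) (hT : 0 < ‖T‖) :
    ∃ x y : H, ‖x‖ = 1 ∧ ‖y‖ = 1 ∧ T x = ((‖T‖ : ℝ) : ℂ) • y ∧
      star T y = ((‖T‖ : ℝ) : ℂ) • x := by
  obtain ⟨x, hx, hTx⟩ := exists_max_vec T
  set K := ‖T‖ with hK
  have hKc : ((K : ℝ) : ℂ) ≠ 0 := by exact_mod_cast hT.ne'
  refine ⟨x, ((K⁻¹ : ℝ) : ℂ) • T x, hx, ?_, ?_, ?_⟩
  · rw [norm_smul, Complex.norm_real, Real.norm_of_nonneg (by positivity), hTx]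
    field_simp
  · rw [smul_smul, ← Complex.ofReal_mul, mul_inv_cancel₀ hT.ne', Complex.ofReal_one, one_smul]
  · have h1 : ‖star T (T x) - (((K ^ 2 : ℝ)) : ℂ) • x‖ ^ 2 ≤ 0 := by
      rw [norm_sub_sq (𝕜 := ℂ), inner_smul_right, ContinuousLinearMap.star_eq_adjoint,
        ContinuousLinearMap.adjoint_inner_left, inner_self_eq_norm_sq_to_K, hTx, norm_smul,
        Complex.norm_real, Real.norm_of_nonneg (by positivity), hx]
      have h2 : ‖(ContinuousLinearMap.adjoint T) (T x)‖ ≤ K * K := by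
        calc ‖(ContinuousLinearMap.adjoint T) (T x)‖ ≤ ‖ContinuousLinearMap.adjoint T‖ * ‖T x‖ :=
              ContinuousLinearMap.le_opNorm _ _
          _ = K * K := by rw [hTx, LinearIsometryEquiv.norm_map]
      have h3 : RCLike.re (((K ^ 2 : ℝ) : ℂ) * ((K : ℝ) : ℂ) ^ 2) = K ^ 4 := by
        have : ((K ^ 2 : ℝ) : ℂ) * ((K : ℝ) : ℂ) ^ 2 = ((K ^ 4 : ℝ) : ℂ) := by
          push_cast; ring
        rw [this]
        exact Complex.ofReal_re _
      have h4 : RCLike.re (((K ^ 2 : ℝ) : ℂ) * ((K : ℂ)) ^ 2) = K ^ 4 := h3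
      simp only [Complex.coe_algebraMap] at *
      rw [h4]
      nlinarith [norm_nonneg ((ContinuousLinearMap.adjoint T) (T x))]
    have h2 : star T (T x) = (((K ^ 2 : ℝ)) : ℂ) • x := by
      rw [← sub_eq_zero, ← norm_eq_zero]
      nlinarith [norm_nonneg (star T (T x) - (((K ^ 2 : ℝ)) : ℂ) • x)]
    rw [map_smul, h2, smul_smul, ← Complex.ofReal_mul]
    congr 2
    field_simp

omit [FiniteDimensional ℂ H] in
/-- orthogonality of the extremal pair -/
theorem pair_orth (T : H →L[ℂ] H) (K : ℝ) (hK : 1 < K) (x y : H) (hx : ‖x‖ = 1) (hy : ‖y‖ = 1)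
    (hTx : T x = (K : ℂ) • y)
    (hTy : star T y = (K : ℂ) • x)
    (hvar : ∀ a : ℂ, ‖a‖ ≤ 1 →
      ‖(T - a • (1 : H →L[ℂ] H)) * ((1 : H →L[ℂ] H) + star a • T)‖ ≤ K * (1 + ‖a‖ ^ 2)) :
    inner ℂ x y = 0 := by
  by_contra hne
  set b : ℂ := inner ℂ y x with hb
  have hbxy : inner ℂ x y = star b := by rw [hb, Complex.star_def, inner_conj_symm]
  have hb0 : b ≠ 0 := by
    intro h
    apply hne
    rw [hbxy, h, star_zero]
  have hbn : 0 < ‖b‖ := norm_pos_iff.mpr hb0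
  have hb1 : ‖b‖ ≤ 1 := by
    calc ‖b‖ ≤ ‖y‖ * ‖x‖ := norm_inner_le_norm _ _
      _ = 1 := by rw [hx, hy, mul_one]
  -- the test value
  set s : ℝ := min 1 ((K ^ 2 - 1) / (4 * K)) with hs
  have hs0 : 0 < s := lt_min one_pos (by apply div_pos <;> nlinarith)
  have hs1 : s ≤ 1 := min_le_left _ _
  have hs2 : 4 * K * s ≤ K ^ 2 - 1 := by
    have : s ≤ (K ^ 2 - 1) / (4 * K) := min_le_right _ _
    rw [le_div_iff₀ (by positivity)] at this
    linarith
  have hv := hvar ((s : ℂ) * star b) (by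
    rw [norm_mul, Complex.norm_real, norm_star, Real.norm_of_nonneg hs0.le]
    nlinarith)
  have hna : ‖(s : ℂ) * star b‖ ^ 2 = s ^ 2 * ‖b‖ ^ 2 := by
    rw [norm_mul, Complex.norm_real, norm_star, Real.norm_of_nonneg hs0.le, mul_pow]
  rw [hna] at hv
  set a : ℂ := (s : ℂ) * star b with ha
  have h1 : (inner ℂ y (((T - a • (1 : H →L[ℂ] H)) * ((1 : H →L[ℂ] H) + star a • T)) x)).re
      ≤ K * (1 + s ^ 2 * ‖b‖ ^ 2) := by
    calc (inner ℂ y (((T - a • (1 : H →L[ℂ] H)) * ((1 : H →L[ℂ] H) + star a • T)) x)).re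
        ≤ ‖inner ℂ y (((T - a • (1 : H →L[ℂ] H)) * ((1 : H →L[ℂ] H) + star a • T)) x)‖ :=
          Complex.re_le_norm _
      _ ≤ ‖y‖ * ‖((T - a • (1 : H →L[ℂ] H)) * ((1 : H →L[ℂ] H) + star a • T)) x‖ :=
          norm_inner_le_norm _ _
      _ ≤ ‖y‖ * (‖(T - a • (1 : H →L[ℂ] H)) * ((1 : H →L[ℂ] H) + star a • T)‖ * ‖x‖) := by
          gcongr
          exact ContinuousLinearMap.le_opNorm _ _
      _ ≤ K * (1 + s ^ 2 * ‖b‖ ^ 2) := by rw [hx, hy]; linarith
  have hyy : inner ℂ y y = (1 : ℂ) := by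
    rw [inner_self_eq_norm_sq_to_K, hy]; simp
  have hTT : inner ℂ y (T (T x)) = (K : ℂ) ^ 2 * star b := by
    have : inner ℂ y (T (T x)) = inner ℂ (star T y) (T x) := by
      rw [ContinuousLinearMap.star_eq_adjoint, ContinuousLinearMap.adjoint_inner_left]
    rw [this, hTy, hTx, inner_smul_left, inner_smul_right, Complex.conj_ofReal, hbxy]
    ring
  have h2 : inner ℂ y (((T - a • (1 : H →L[ℂ] H)) * ((1 : H →L[ℂ] H) + star a • T)) x) =
      (K : ℂ) - a * b + star a * ((K : ℂ) ^ 2 * star b) - a * star a * K := by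
    have e : ((T - a • (1 : H →L[ℂ] H)) * ((1 : H →L[ℂ] H) + star a • T)) x =
        T x - a • x + star a • T (T x) - (a * star a) • T x := by
      show (T - a • (1 : H →L[ℂ] H)) (((1 : H →L[ℂ] H) + star a • T) x) = _
      rw [sub_apply, add_apply, smul_apply, smul_apply, one_apply_eq_self, one_apply_eq_self,
        map_add, map_smul, smul_add, smul_smul]
      abel
    rw [e, inner_sub_right, inner_add_right, inner_sub_right, inner_smul_right, inner_smul_right,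
      inner_smul_right, hTT, hTx, inner_smul_right, hyy]
    ring
  have hbb : star b * b = ((‖b‖ ^ 2 : ℝ) : ℂ) := by
    rw [mul_comm, Complex.star_def, Complex.mul_conj, Complex.normSq_eq_norm_sq]
  have h3 : (K : ℂ) - a * b + star a * ((K : ℂ) ^ 2 * star b) - a * star a * K =
      ((K - s * ‖b‖ ^ 2 + s * K ^ 2 * ‖b‖ ^ 2 - s ^ 2 * ‖b‖ ^ 2 * K : ℝ) : ℂ) := by
    rw [ha]
    have e1 : star ((s : ℂ) * star b) = (s : ℂ) * b := by
      rw [star_mul', star_star, Complex.star_def, Complex.conj_ofReal]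
    rw [e1]
    push_cast
    have e2 : ((‖b‖ : ℝ) : ℂ) ^ 2 = star b * b := by rw [hbb]; push_cast; rfl
    rw [e2]
    ring
  rw [h2, h3, Complex.ofReal_re] at h1
  have h4 : 0 < s * ‖b‖ ^ 2 := by positivity
  have h5 : s * ‖b‖ ^ 2 * (K ^ 2 - 1 - 2 * K * s) ≤ 0 := by nlinarith
  have h6 : 0 < K ^ 2 - 1 - 2 * K * s := by nlinarith
  nlinarith [mul_pos h4 h6]

end Pool.Agent.T6.H68.QNR
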