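import Pool.Agent.T6.H68.QNR.Ext
import Pool.Agent.H640R2.PhaseMuC

set_option autoImplicit false

open Filter Topology

namespace Pool.Agent.T6.H68.QNR

variable {H : Type*} [NormedAddCommGroup H] [InnerProductSpace ℂ H] [FiniteDimensional ℂ H]
  [CompleteSpace H]

omit [FiniteDimensional ℂ H] in
theorem eig_of_max (T : H →L[ℂ] H) (x : H) (hx : ‖x‖ = 1) (hTx : ‖T x‖ = ‖T‖) :
    star T (T x) = (((‖T‖ ^ 2 : ℝ)) : ℂ) • x := by
  set K := ‖T‖ with hK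
  have h1 : ‖star T (T x) - (((K ^ 2 : ℝ)) : ℂ) • x‖ ^ 2 ≤ 0 := by
    rw [norm_sub_sq (𝕜 := ℂ), inner_smul_right, ContinuousLinearMap.star_eq_adjoint,
      ContinuousLinearMap.adjoint_inner_left, inner_self_eq_norm_sq_to_K, hTx, norm_smul,
      Complex.norm_real, Real.norm_of_nonneg (by positivity), hx]
    have h2 : ‖(ContinuousLinearMap.adjoint T) (T x)‖ ≤ K * K := by
      calc ‖(ContinuousLinearMap.adjoint T) (T x)‖ ≤ ‖ContinuousLinearMap.adjoint T‖ * ‖T x‖ :=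
            ContinuousLinearMap.le_opNorm _ _
        _ = K * K := by rw [hTx, LinearIsometryEquiv.norm_map]
    have h4 : RCLike.re (((K ^ 2 : ℝ) : ℂ) * ((K : ℂ)) ^ 2) = K ^ 4 := by
      have : ((K ^ 2 : ℝ) : ℂ) * ((K : ℝ) : ℂ) ^ 2 = ((K ^ 4 : ℝ) : ℂ) := by
        push_cast; ring
      rw [this]
      exact Complex.ofReal_re _
    simp only [Complex.coe_algebraMap] at *
    rw [h4]
    nlinarith [norm_nonneg ((ContinuousLinearMap.adjoint T) (T x))]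
  rw [← sub_eq_zero, ← norm_eq_zero]
  nlinarith [norm_nonneg (star T (T x) - (((K ^ 2 : ℝ)) : ℂ) • x)]

/-- Bhatia–Šemrl -/
theorem bhatia_semrl [Nontrivial H] (T B : H →L[ℂ] H) (hmin : ∀ ε : ℂ, ‖T‖ ≤ ‖T + ε • B‖) :
    ∃ x : H, ‖x‖ = 1 ∧ ‖T x‖ = ‖T‖ ∧ inner ℂ (T x) (B x) = 0 := by
  by_contra hcon
  push Not at hcon
  set V : Submodule ℂ H :=
    LinearMap.ker ((star T * T - (((‖T‖ ^ 2 : ℝ)) : ℂ) • (1 : H →L[ℂ] H) : H →L[ℂ] H) : H →ₗ[ℂ] H)
    with hV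
  have hmemV : ∀ x : H, x ∈ V ↔ star T (T x) = (((‖T‖ ^ 2 : ℝ)) : ℂ) • x := by
    intro x
    rw [hV, LinearMap.mem_ker]
    show (star T * T - (((‖T‖ ^ 2 : ℝ)) : ℂ) • (1 : H →L[ℂ] H)) x = 0 ↔ _
    rw [sub_apply, smul_apply, one_apply_eq_self, sub_eq_zero]
    rfl
  have hnormV : ∀ x ∈ V, ‖x‖ = 1 → ‖T x‖ = ‖T‖ := by
    intro x hx hx1
    rw [hmemV] at hx
    have h1 : ‖T x‖ ^ 2 = ‖T‖ ^ 2 := by
      have h2 : inner ℂ (star T (T x)) x = ((‖T x‖ ^ 2 : ℝ) : ℂ) := by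
        rw [ContinuousLinearMap.star_eq_adjoint, ContinuousLinearMap.adjoint_inner_left,
          inner_self_eq_norm_sq_to_K]
        push_cast; rfl
      rw [hx, inner_smul_left, Complex.conj_ofReal, inner_self_eq_norm_sq_to_K, hx1] at h2
      have h3 : ((‖T‖ ^ 2 : ℝ) : ℂ) = ((‖T x‖ ^ 2 : ℝ) : ℂ) := by
        rw [← h2]; simp
      exact_mod_cast h3.symm
    exact (pow_left_inj₀ (norm_nonneg _) (norm_nonneg _) (by norm_num)).mp h1
  set Cmp : V →L[ℂ] V := (V.orthogonalProjectionOnto.comp (star T * B)).comp V.subtypeL with hCmp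
  have hCin : ∀ x : V, inner ℂ x (Cmp x) = inner ℂ (T (x : H)) (B (x : H)) := by
    intro x
    have h1 : inner ℂ x (Cmp x) = inner ℂ (x : H) ((star T * B) (x : H)) := by
      rw [hCmp]
      exact (Submodule.inner_orthogonalProjectionOnto_eq_of_mem_left x _)
    rw [h1]
    show inner ℂ (x : H) (star T (B (x : H))) = _
    rw [ContinuousLinearMap.star_eq_adjoint, ContinuousLinearMap.adjoint_inner_right]
  obtain ⟨κ, δ, hδ, _, hsep⟩ := H640R2.PhaseMu.separation Cmp {0} (convex_singleton 0)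
    isClosed_singleton rfl (by
      intro c _ z hz
      rw [Set.mem_singleton_iff] at hz
      rw [hz, mul_zero]; rfl) (by
      intro x hx
      rw [Set.mem_singleton_iff, hCin]
      have hx1 : ‖(x : H)‖ = 1 := hx
      exact hcon x hx1 (hnormV x x.2 hx1))
  have hsepH : ∀ x ∈ V, ‖x‖ = 1 → (κ * inner ℂ (T x) (B x)).re ≤ -δ := by
    intro x hx hx1
    have h := hsep ⟨x, hx⟩
    rw [hCin] at h
    have hx2 : ‖(⟨x, hx⟩ : V)‖ = 1 := hx1
    rw [hx2] at h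
    simpa using h
  -- sequence of maximal vectors
  have : ProperSpace H := FiniteDimensional.proper ℂ H
  set s : ℕ → ℝ := fun n => 1 / ((n : ℝ) + 1) with hs
  have hs0 : ∀ n, 0 < s n := fun n => by rw [hs]; positivity
  have hslim : Tendsto s atTop (𝓝 0) := tendsto_one_div_add_atTop_nhds_zero_nat
  choose x hx1 hxmax using fun n => exists_max_vec (T + ((s n : ℂ) * κ) • B)
  set U : Ultrafilter ℕ := hyperfilter ℕ with hU
  have hUle : (U : Filter ℕ) ≤ atTop := Nat.hyperfilter_le_atTop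
  obtain ⟨x0, hx0⟩ := ulim U x 1 (fun m => (hx1 m).le)
  have hsU : Tendsto s U (𝓝 0) := hslim.mono_left hUle
  have hsUc : Tendsto (fun n => (s n : ℂ)) U (𝓝 ((0 : ℝ) : ℂ)) :=
    (Complex.continuous_ofReal.tendsto 0).comp hsU
  have hx01 : ‖x0‖ = 1 := by
    have h1 : Tendsto (fun n => ‖x n‖) U (𝓝 ‖x0‖) := hx0.norm
    have h2 : (fun n => ‖x n‖) = fun _ => (1 : ℝ) := funext hx1
    rw [h2] at h1
    exact (tendsto_nhds_unique h1 tendsto_const_nhds)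
  have hTx : Tendsto (fun n => T (x n)) U (𝓝 (T x0)) := (T.continuous.tendsto x0).comp hx0
  have hBx : Tendsto (fun n => B (x n)) U (𝓝 (B x0)) := (B.continuous.tendsto x0).comp hx0
  have hmaxn : ∀ n, ‖T‖ ≤ ‖T (x n) + ((s n : ℂ) * κ) • B (x n)‖ := by
    intro n
    have h1 := hmin ((s n : ℂ) * κ)
    rw [← hxmax n] at h1
    exact h1
  have hx0max : ‖T x0‖ = ‖T‖ := by
    apply le_antisymm
    · calc ‖T x0‖ ≤ ‖T‖ * ‖x0‖ := T.le_opNorm x0
        _ = ‖T‖ := by rw [hx01, mul_one]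
    · have h1 : Tendsto (fun n => ‖T (x n) + ((s n : ℂ) * κ) • B (x n)‖) U
          (𝓝 ‖T x0 + (((0 : ℝ) : ℂ) * κ) • B x0‖) :=
        (hTx.add ((hsUc.mul_const κ).smul hBx)).norm
      have h2 := ge_of_tendsto' h1 hmaxn
      simpa using h2
  have hx0V : x0 ∈ V := by
    rw [hmemV]
    exact eig_of_max T x0 hx01 hx0max
  have hineq : ∀ n, -(s n * (‖κ‖ ^ 2 * ‖B (x n)‖ ^ 2)) ≤ 2 * (κ * inner ℂ (T (x n)) (B (x n))).re := by
    intro n
    have h1 := hmaxn n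
    have h2 : ‖T‖ ^ 2 ≤ ‖T (x n) + ((s n : ℂ) * κ) • B (x n)‖ ^ 2 :=
      pow_le_pow_left₀ (norm_nonneg _) h1 2
    rw [norm_add_sq (𝕜 := ℂ), inner_smul_right, norm_smul, norm_mul, Complex.norm_real,
      Real.norm_of_nonneg (hs0 n).le] at h2
    have h3 : ‖T (x n)‖ ≤ ‖T‖ := by
      calc ‖T (x n)‖ ≤ ‖T‖ * ‖x n‖ := T.le_opNorm _
        _ = ‖T‖ := by rw [hx1, mul_one]
    have h4 : ‖T (x n)‖ ^ 2 ≤ ‖T‖ ^ 2 := pow_le_pow_left₀ (norm_nonneg _) h3 2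
    have h5 : RCLike.re ((s n : ℂ) * κ * inner ℂ (T (x n)) (B (x n))) =
        s n * (κ * inner ℂ (T (x n)) (B (x n))).re := by
      rw [RCLike.re_eq_complex_re, mul_assoc, Complex.re_ofReal_mul]
    rw [h5] at h2
    have h6 : 0 ≤ s n * (2 * (κ * inner ℂ (T (x n)) (B (x n))).re
        + s n * (‖κ‖ ^ 2 * ‖B (x n)‖ ^ 2)) := by
      nlinarith
    have h7 := nonneg_of_mul_nonneg_right h6 (hs0 n)
    linarith
  have hl1 : Tendsto (fun n => -(s n * (‖κ‖ ^ 2 * ‖B (x n)‖ ^ 2))) U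
      (𝓝 (-(0 * (‖κ‖ ^ 2 * ‖B x0‖ ^ 2)))) :=
    (hsU.mul ((hBx.norm.pow 2).const_mul _)).neg
  have hl2 : Tendsto (fun n => 2 * (κ * inner ℂ (T (x n)) (B (x n))).re) U
      (𝓝 (2 * (κ * inner ℂ (T x0) (B x0)).re)) :=
    ((Complex.continuous_re.tendsto _).comp ((hTx.inner hBx).const_mul κ)).const_mul 2
  have hl3 := le_of_tendsto_of_tendsto' hl1 hl2 hineq
  have hl4 := hsepH x0 hx0V hx01
  linarith

end Pool.Agent.T6.H68.QNR
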