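import Pool.Agent.T6.H68.QNR.Geom

set_option autoImplicit false

open Filter Topology

namespace Pool.Agent.T6.H68.QNR

variable {H : Type*} [NormedAddCommGroup H] [InnerProductSpace ℂ H] [FiniteDimensional ℂ H]
  [CompleteSpace H]

/-- existence of a vector with small cosine -/
theorem small_cos [Nontrivial H] (B : H →L[ℂ] H) (q c : ℝ) (hq0 : 0 < q) (hq1 : q < 1)
    (hc0 : 0 ≤ c) (hc : c ^ 2 = 1 - q ^ 2)
    (hB : ∀ s : ℂ, q * ‖s‖ ≤ ‖B - s • (1 : H →L[ℂ] H)‖) :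
    ∃ x : H, ‖x‖ = 1 ∧ ‖inner ℂ x (B x)‖ ≤ c * ‖B x‖ := by
  by_cases hB0 : B = 0
  · obtain ⟨x0, hx0⟩ := exists_norm_eq H (zero_le_one (α := ℝ))
    exact ⟨x0, hx0, by rw [hB0]; simp⟩
  have hBn : 0 < ‖B‖ := norm_pos_iff.mpr hB0
  have hone : ‖(1 : H →L[ℂ] H)‖ = 1 := norm_one
  -- minimiser
  have hcont : Continuous (fun ε : ℂ => ‖(1 : H →L[ℂ] H) - ε • B‖) := by fun_prop
  obtain ⟨ε0, hε0, hmin0⟩ := (isCompact_closedBall (0 : ℂ) (2 / ‖B‖)).exists_isMinOn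
    ⟨0, by simp; positivity⟩ hcont.continuousOn
  have hmin : ∀ ε : ℂ, ‖(1 : H →L[ℂ] H) - ε0 • B‖ ≤ ‖(1 : H →L[ℂ] H) - ε • B‖ := by
    intro ε
    by_cases hε : ‖ε‖ ≤ 2 / ‖B‖
    · exact hmin0 (by simpa using hε)
    · push Not at hε
      have h1 : ‖(1 : H →L[ℂ] H) - ε0 • B‖ ≤ 1 := by
        have := hmin0 (show (0 : ℂ) ∈ Metric.closedBall (0 : ℂ) (2 / ‖B‖) by simp; positivity)
        simp only [Set.mem_ofPred_eq, zero_smul, sub_zero, hone] at this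
        exact this
      have h2 : ‖ε • B‖ ≤ ‖(1 : H →L[ℂ] H) - ε • B‖ + 1 := by
        have : ε • B = (1 : H →L[ℂ] H) - ((1 : H →L[ℂ] H) - ε • B) := by abel
        calc ‖ε • B‖ = ‖(1 : H →L[ℂ] H) - ((1 : H →L[ℂ] H) - ε • B)‖ := by rw [← this]
          _ ≤ ‖(1 : H →L[ℂ] H)‖ + ‖(1 : H →L[ℂ] H) - ε • B‖ := norm_sub_le _ _
          _ = _ := by rw [hone]; ring
      rw [norm_smul] at h2
      have h3 : 2 < ‖ε‖ * ‖B‖ := by
        rwa [div_lt_iff₀ hBn] at hε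
      linarith
  set T : H →L[ℂ] H := (1 : H →L[ℂ] H) - ε0 • B with hT
  obtain ⟨x, hx1, hxT, hxo⟩ := bhatia_semrl T B (by
    intro ε
    have e : T + ε • B = (1 : H →L[ℂ] H) - (ε0 - ε) • B := by
      rw [hT, sub_smul]; abel
    rw [e]
    exact hmin _)
  have hTq : q ≤ ‖T‖ := by
    by_cases h0 : ε0 = 0
    · rw [hT, h0, zero_smul, sub_zero, hone]; exact hq1.le
    · have h1 := hB ε0⁻¹
      have e : T = (-ε0) • (B - ε0⁻¹ • (1 : H →L[ℂ] H)) := by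
        rw [hT, smul_sub, smul_smul, neg_mul, mul_inv_cancel₀ h0, neg_smul, neg_smul, one_smul]
        abel
      rw [e, norm_smul, norm_neg]
      have h2 : 0 < ‖ε0‖ := norm_pos_iff.mpr h0
      rw [norm_inv] at h1
      calc q = ‖ε0‖ * (q * ‖ε0‖⁻¹) := by field_simp
        _ ≤ _ := by gcongr
  have hTx : T x = x - ε0 • B x := by
    rw [hT, sub_apply, smul_apply, one_apply_eq_self]
  have hBB : inner ℂ (B x) (B x) = ((‖B x‖ ^ 2 : ℝ) : ℂ) := by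
    rw [inner_self_eq_norm_sq_to_K]; push_cast; rfl
  have hi : inner ℂ x (B x) = star ε0 * ((‖B x‖ ^ 2 : ℝ) : ℂ) := by
    rw [hTx, inner_sub_left, inner_smul_left, hBB] at hxo
    rw [← sub_eq_zero]
    exact hxo
  have hm : ‖T‖ ^ 2 = 1 - ‖ε0‖ ^ 2 * ‖B x‖ ^ 2 := by
    have h1 : ‖T x‖ ^ 2 = 1 - ‖ε0‖ ^ 2 * ‖B x‖ ^ 2 := by
      rw [hTx, norm_sub_sq (𝕜 := ℂ), inner_smul_right, hi, norm_smul, hx1]
      have e1 : ε0 * (star ε0 * ((‖B x‖ ^ 2 : ℝ) : ℂ)) = ((‖ε0‖ ^ 2 * ‖B x‖ ^ 2 : ℝ) : ℂ) := by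
        rw [← mul_assoc, Complex.star_def, Complex.mul_conj, Complex.normSq_eq_norm_sq]
        push_cast; ring
      have e2 : RCLike.re (((‖ε0‖ ^ 2 * ‖B x‖ ^ 2 : ℝ) : ℂ)) = ‖ε0‖ ^ 2 * ‖B x‖ ^ 2 :=
        Complex.ofReal_re _
      rw [e1, e2]
      ring
    rw [← hxT]; exact h1
  refine ⟨x, hx1, ?_⟩
  have h1 : (‖ε0‖ * ‖B x‖) ^ 2 ≤ c ^ 2 := by
    rw [hc, mul_pow]
    nlinarith
  have h2 : ‖ε0‖ * ‖B x‖ ≤ c := le_of_sq_le_sq h1 hc0
  rw [hi, norm_mul, norm_star, Complex.norm_real, Real.norm_of_nonneg (by positivity)]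
  calc ‖ε0‖ * ‖B x‖ ^ 2 = (‖ε0‖ * ‖B x‖) * ‖B x‖ := by ring
    _ ≤ c * ‖B x‖ := by gcongr

/-- exact cosine by connectedness of the sphere -/
theorem exact_cos [Nontrivial H] (B : H →L[ℂ] H) (q c : ℝ) (hq0 : 0 < q) (hq1 : q < 1)
    (hc0 : 0 ≤ c) (hc : c ^ 2 = 1 - q ^ 2)
    (hB : ∀ s : ℂ, q * ‖s‖ ≤ ‖B - s • (1 : H →L[ℂ] H)‖) :
    ∃ x : H, ‖x‖ = 1 ∧ ‖inner ℂ x (B x)‖ = c * ‖B x‖ := by
  obtain ⟨x1, hx1, hx1'⟩ := small_cos B q c hq0 hq1 hc0 hc hB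
  -- eigenvector
  obtain ⟨μ, hμ⟩ := Module.End.exists_eigenvalue (B : H →ₗ[ℂ] H)
  obtain ⟨v, hv⟩ := hμ.exists_hasEigenvector
  have hv0 : v ≠ 0 := hv.2
  have hBv : B v = μ • v := hv.apply_eq_smul
  have hvn : 0 < ‖v‖ := norm_pos_iff.mpr hv0
  set x2 : H := ((‖v‖⁻¹ : ℝ) : ℂ) • v with hx2
  have hx2n : ‖x2‖ = 1 := by
    rw [hx2, norm_smul, Complex.norm_real, Real.norm_of_nonneg (by positivity)]
    field_simp
  have hBx2 : B x2 = μ • x2 := by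
    rw [hx2, map_smul, hBv, smul_comm]
  have hc1 : c ≤ 1 := by nlinarith
  have hx2' : c * ‖B x2‖ ≤ ‖inner ℂ x2 (B x2)‖ := by
    rw [hBx2, inner_smul_right, norm_mul, norm_smul, hx2n, mul_one]
    have : ‖inner ℂ x2 x2‖ = (1 : ℝ) := by
      rw [inner_self_eq_norm_sq_to_K, hx2n]; simp
    rw [this]
    nlinarith [norm_nonneg μ]
  let _ : NormedSpace ℝ H := NormedSpace.restrictScalars ℝ ℂ H
  have hrank : 1 < Module.rank ℝ H := by
    rw [rank_real_of_complex]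
    have h1 : 1 ≤ Module.rank ℂ H := by
      rw [Cardinal.one_le_iff_pos]
      exact rank_pos
    calc (1 : Cardinal) < 2 := by norm_num
      _ = 2 * 1 := by norm_num
      _ ≤ 2 * Module.rank ℂ H := by gcongr
  have hconn : IsPreconnected (Metric.sphere (0 : H) 1) := isPreconnected_sphere hrank 0 1
  have hF : Continuous (fun x : H => ‖inner ℂ x (B x)‖ - c * ‖B x‖) := by fun_prop
  have himg := hconn.intermediate_value (f := fun x : H => ‖inner ℂ x (B x)‖ - c * ‖B x‖)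
    (show x1 ∈ _ by simpa using hx1) (show x2 ∈ _ by simpa using hx2n) hF.continuousOn
  obtain ⟨x, hx, hx'⟩ := himg (show (0 : ℝ) ∈ Set.Icc _ _ from ⟨by linarith, by linarith⟩)
  exact ⟨x, by simpa using hx, by simp only at hx'; linarith⟩

/-- the pair -/
theorem pair_exists (hd : 2 ≤ Module.finrank ℂ H) (B : H →L[ℂ] H) (q : ℝ) (hq0 : 0 < q)
    (hq1 : q < 1) (hB : ∀ s : ℂ, q * ‖s‖ ≤ ‖B - s • (1 : H →L[ℂ] H)‖) :
    ∃ x y : H, ‖x‖ = 1 ∧ ‖y‖ = 1 ∧ inner ℂ y x = (q : ℂ) ∧ inner ℂ y (B x) = 0 := by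
  have hnt : Nontrivial H := Module.nontrivial_of_finrank_pos (R := ℂ) (by omega)
  have hq2 : 0 < 1 - q ^ 2 := by nlinarith
  set c : ℝ := √(1 - q ^ 2) with hcdef
  have hc0 : 0 ≤ c := Real.sqrt_nonneg _
  have hc : c ^ 2 = 1 - q ^ 2 := Real.sq_sqrt hq2.le
  obtain ⟨x, hx, hxc⟩ := exact_cos B q c hq0 hq1 hc0 hc hB
  have hxx : inner ℂ x x = (1 : ℂ) := by
    rw [inner_self_eq_norm_sq_to_K, hx]; simp
  by_cases hBx : B x = 0
  · -- choose a unit vector orthogonal to x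
    have hex : ∃ e : H, ‖e‖ = 1 ∧ inner ℂ e x = 0 := by
      set W : Submodule ℂ H := (Submodule.span ℂ {x})ᗮ with hW
      have hfr : Module.finrank ℂ (Submodule.span ℂ {x}) = 1 := by
        apply finrank_span_singleton
        intro h
        rw [h, norm_zero] at hx
        exact zero_ne_one hx
      have hsum := Submodule.finrank_add_finrank_orthogonal (Submodule.span ℂ {x})
      have hWpos : 0 < Module.finrank ℂ W := by rw [hW]; omega
      have : Nontrivial W := Module.nontrivial_of_finrank_pos (R := ℂ) hWpos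
      obtain ⟨e, he⟩ := exists_norm_eq W (zero_le_one (α := ℝ))
      refine ⟨e, he, ?_⟩
      have h5 : (e : H) ∈ (Submodule.span ℂ {x})ᗮ := e.2
      rw [Submodule.mem_orthogonal'] at h5
      exact h5 x (Submodule.mem_span_singleton_self x)
    obtain ⟨e, he, hex⟩ := hex
    refine ⟨x, (q : ℂ) • x + (c : ℂ) • e, hx, ?_, ?_, ?_⟩
    · have h1 : ‖(q : ℂ) • x + (c : ℂ) • e‖ ^ 2 = 1 := by
        rw [norm_add_sq (𝕜 := ℂ), inner_smul_left, inner_smul_right,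
          ← inner_conj_symm, hex, norm_smul, norm_smul, hx, he, Complex.norm_real,
          Complex.norm_real, Real.norm_of_nonneg hq0.le, Real.norm_of_nonneg hc0]
        simp
        rw [hc]; ring
      have h2 : 0 ≤ ‖(q : ℂ) • x + (c : ℂ) • e‖ := norm_nonneg _
      nlinarith
    · rw [inner_add_left, inner_smul_left, inner_smul_left, hex, hxx, Complex.conj_ofReal]
      simp
    · rw [hBx, inner_zero_right]
  · have hbn : 0 < ‖B x‖ := norm_pos_iff.mpr hBx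
    have hbc : ((‖B x‖ : ℝ) : ℂ) ≠ 0 := by exact_mod_cast hbn.ne'
    have hBB : inner ℂ (B x) (B x) = ((‖B x‖ ^ 2 : ℝ) : ℂ) := by
      rw [inner_self_eq_norm_sq_to_K]; push_cast; rfl
    -- projection
    set a : ℂ := inner ℂ (B x) x / ((‖B x‖ ^ 2 : ℝ) : ℂ) with ha
    set p : H := x - a • B x with hp
    have hpB : inner ℂ p (B x) = 0 := by
      rw [hp, inner_sub_left, inner_smul_left, hBB, ha, map_div₀, Complex.conj_ofReal,
        inner_conj_symm]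
      have : ((‖B x‖ ^ 2 : ℝ) : ℂ) ≠ 0 := by exact_mod_cast (pow_pos hbn 2).ne'
      rw [div_mul_cancel₀ _ this, sub_self]
    have hsym : ‖inner ℂ (B x) x‖ = c * ‖B x‖ := by rw [norm_inner_symm, hxc]
    have hpx : inner ℂ p x = ((q ^ 2 : ℝ) : ℂ) := by
      rw [hp, inner_sub_left, inner_smul_left, hxx, ha, map_div₀, Complex.conj_ofReal]
      have h1 : (starRingEnd ℂ) (inner ℂ (B x) x) * inner ℂ (B x) x =
          (((c * ‖B x‖) ^ 2 : ℝ) : ℂ) := by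
        rw [mul_comm, Complex.mul_conj, Complex.normSq_eq_norm_sq, hsym]
      rw [div_mul_eq_mul_div, h1]
      have h2 : (((c * ‖B x‖) ^ 2 : ℝ) : ℂ) / ((‖B x‖ ^ 2 : ℝ) : ℂ) = ((c ^ 2 : ℝ) : ℂ) := by
        push_cast
        field_simp
      rw [h2, hc]
      push_cast
      ring
    have hpp : ‖p‖ ^ 2 = q ^ 2 := by
      have h1 : inner ℂ p p = inner ℂ p x := by
        conv_lhs => rw [show inner ℂ p p = inner ℂ p (x - a • B x) by rw [← hp]]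
        rw [inner_sub_right, inner_smul_right, hpB, mul_zero, sub_zero]
      have h2 : ((‖p‖ ^ 2 : ℝ) : ℂ) = ((q ^ 2 : ℝ) : ℂ) := by
        rw [← hpx, ← h1, inner_self_eq_norm_sq_to_K]; push_cast; rfl
      exact_mod_cast h2
    have hpn : ‖p‖ = q := (pow_left_inj₀ (norm_nonneg _) hq0.le (by norm_num)).mp hpp
    refine ⟨x, ((q⁻¹ : ℝ) : ℂ) • p, hx, ?_, ?_, ?_⟩
    · rw [norm_smul, Complex.norm_real, Real.norm_of_nonneg (by positivity), hpn]
      field_simp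
    · rw [inner_smul_left, Complex.conj_ofReal, hpx, ← Complex.ofReal_mul]
      congr 1
      field_simp
    · rw [inner_smul_left, hpB, mul_zero]

end Pool.Agent.T6.H68.QNR
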