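import Pool.Agent.T6.H68.QNR.Geom2
import Pool.Agent.T6.H68.QNR.Disc
import Pool.Agent.W753.CZ.Crouzeix

set_option autoImplicit false

open Filter Topology Polynomial

namespace Pool.Agent.T6.H68.QNR

variable {H : Type*} [NormedAddCommGroup H] [InnerProductSpace ℂ H] [FiniteDimensional ℂ H]
  [CompleteSpace H]

omit [FiniteDimensional ℂ H] [CompleteSpace H] in
theorem sep_of_no_pair (A : H →L[ℂ] H) (q : ℝ) (hq0 : 0 < q) (z s : ℂ)
    (hs : ‖(A - z • (1 : H →L[ℂ] H)) - s • (1 : H →L[ℂ] H)‖ < q * ‖s‖) :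
    ∃ w : ℂ, ∃ r : ℝ, 0 < r ∧ ‖A - w • (1 : H →L[ℂ] H)‖ ≤ q * r ∧ r < ‖z - w‖ := by
  have e : (A - z • (1 : H →L[ℂ] H)) - s • (1 : H →L[ℂ] H) = A - (z + s) • (1 : H →L[ℂ] H) := by
    rw [add_smul, sub_sub]
  rw [e] at hs
  have h0 : 0 ≤ ‖A - (z + s) • (1 : H →L[ℂ] H)‖ := norm_nonneg _
  have h1 : ‖A - (z + s) • (1 : H →L[ℂ] H)‖ / q < ‖s‖ := by
    rw [div_lt_iff₀ hq0, mul_comm]; exact hs
  have h2 : 0 ≤ ‖A - (z + s) • (1 : H →L[ℂ] H)‖ / q := by positivity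
  have e2 : ‖z - (z + s)‖ = ‖s‖ := by
    rw [sub_add_cancel_left, norm_neg]
  refine ⟨z + s, (‖A - (z + s) • (1 : H →L[ℂ] H)‖ / q + ‖s‖) / 2, by linarith, ?_, ?_⟩
  · have h3 : ‖A - (z + s) • (1 : H →L[ℂ] H)‖ = q * (‖A - (z + s) • (1 : H →L[ℂ] H)‖ / q) := by
      field_simp
    calc ‖A - (z + s) • (1 : H →L[ℂ] H)‖ = q * (‖A - (z + s) • (1 : H →L[ℂ] H)‖ / q) := h3
      _ ≤ q * ((‖A - (z + s) • (1 : H →L[ℂ] H)‖ / q + ‖s‖) / 2) :=
          mul_le_mul_of_nonneg_left (by linarith) hq0.le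
  · rw [e2]; linarith

theorem q_bound (hd : 2 ≤ Module.finrank ℂ H) (A : H →L[ℂ] H) (q : ℝ) (hq0 : 0 < q)
    (hq1 : q < 1) (p : ℂ[X]) (M : ℝ)
    (hM : ∀ x y : H, ‖x‖ = 1 → ‖y‖ = 1 → inner ℂ y x = (q : ℂ) →
      ‖p.eval (inner ℂ y (A x) / (q : ℂ))‖ ≤ M) :
    ‖aeval A p‖ ≤ max 1 (2 * √((1 - √(1 - q ^ 2)) / (1 + √(1 - q ^ 2)))) * M := by
  classical
  have hnt : Nontrivial H := Module.nontrivial_of_finrank_pos (R := ℂ) (by omega)
  have hqc : (q : ℂ) ≠ 0 := by exact_mod_cast hq0.ne'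
  have hM0 : 0 ≤ M := by
    obtain ⟨x, y, hx, hy, hxy, _⟩ := pair_exists hd (0 : H →L[ℂ] H) q hq0 hq1 (by
      intro s
      rw [zero_sub, norm_neg, norm_smul, norm_one, mul_one]
      nlinarith [norm_nonneg s])
    exact (norm_nonneg _).trans (hM x y hx hy hxy)
  set cq : ℝ := max 1 (2 * √((1 - √(1 - q ^ 2)) / (1 + √(1 - q ^ 2)))) with hcq
  have hcq0 : 0 < cq := lt_of_lt_of_le one_pos (le_max_left _ _)
  have key : ∀ M' : ℝ, M < M' → ‖aeval A p‖ ≤ cq * M' := by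
    intro M' hM'
    set Kc : Set ℂ := Metric.closedBall 0 (‖A‖ / q + 1) ∩ {z | M' ≤ ‖p.eval z‖} with hKc
    have hKcomp : IsCompact Kc :=
      (isCompact_closedBall 0 _).inter_right (isClosed_le continuous_const (by fun_prop))
    have hsep : ∀ z : ℂ, z ∈ Kc → ∃ w : ℂ, ∃ r : ℝ, 0 < r ∧
        ‖A - w • (1 : H →L[ℂ] H)‖ ≤ q * r ∧ r < ‖z - w‖ := by
      intro z hz
      have h1 : ¬ ∀ s : ℂ, q * ‖s‖ ≤ ‖(A - z • (1 : H →L[ℂ] H)) - s • (1 : H →L[ℂ] H)‖ := by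
        intro hall
        obtain ⟨x, y, hx, hy, hxy, h0⟩ := pair_exists hd (A - z • (1 : H →L[ℂ] H)) q hq0 hq1 hall
        rw [sub_apply, smul_apply, one_apply_eq_self, inner_sub_right, inner_smul_right, hxy,
          sub_eq_zero] at h0
        have h2 := hM x y hx hy hxy
        rw [h0, mul_div_cancel_right₀ _ hqc] at h2
        have h3 : M' ≤ ‖p.eval z‖ := hz.2
        linarith
      push Not at h1
      obtain ⟨s, hs⟩ := h1
      exact sep_of_no_pair A q hq0 z s hs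
    choose! w r hr0 hAr hrz using hsep
    obtain ⟨t, htK, htcov⟩ := hKcomp.elim_nhds_subcover (fun z => (Metric.closedBall (w z) (r z))ᶜ)
      (by
        intro z hz
        apply Metric.isClosed_closedBall.isOpen_compl.mem_nhds
        simp only [Set.mem_compl_iff, Metric.mem_closedBall, not_le, dist_eq_norm]
        exact hrz z hz)
    set J : Finset (ℂ × ℝ) := insert (0, ‖A‖ / q + 1) (t.image fun z => (w z, r z)) with hJ
    have hJall : ∀ P : ℂ × ℝ → Prop, P (0, ‖A‖ / q + 1) → (∀ z ∈ t, P (w z, r z)) →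
        ∀ j ∈ J, P j := by
      intro P h1 h2 j hj
      rw [hJ, Finset.mem_insert, Finset.mem_image] at hj
      rcases hj with rfl | ⟨z, hz, rfl⟩
      · exact h1
      · exact h2 z hz
    have hAJ : ∀ j ∈ J, ‖A - j.1 • (1 : H →L[ℂ] H)‖ ≤ q * j.2 := by
      apply hJall
      · show ‖A - (0 : ℂ) • (1 : H →L[ℂ] H)‖ ≤ q * (‖A‖ / q + 1)
        rw [zero_smul, sub_zero, mul_add, mul_div_cancel₀ _ hq0.ne']
        linarith
      · intro z hz
        exact hAr z (htK z hz)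
    have hρJ : ∀ j ∈ J, 0 < j.2 := by
      apply hJall
      · show 0 < ‖A‖ / q + 1
        positivity
      · intro z hz
        exact hr0 z (htK z hz)
    obtain ⟨e, he⟩ := exists_norm_eq H (zero_le_one (α := ℝ))
    have hee : inner ℂ e e = (1 : ℂ) := by
      rw [inner_self_eq_norm_sq_to_K, he]; simp
    refine disc_bound A q hq0 hq1 J ⟨_, Finset.mem_insert_self _ _⟩ hρJ (inner ℂ e (A e)) ?_ hAJ p M'
      (by linarith) ?_
    · intro j hj
      refine le_trans ?_ (hAJ j hj)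
      have h1 : inner ℂ e (A e) - j.1 = inner ℂ e ((A - j.1 • (1 : H →L[ℂ] H)) e) := by
        rw [sub_apply, smul_apply, one_apply_eq_self, inner_sub_right, inner_smul_right, hee,
          mul_one]
      rw [h1]
      calc ‖inner ℂ e ((A - j.1 • (1 : H →L[ℂ] H)) e)‖ ≤
            ‖e‖ * ‖(A - j.1 • (1 : H →L[ℂ] H)) e‖ := norm_inner_le_norm _ _
        _ ≤ ‖e‖ * (‖A - j.1 • (1 : H →L[ℂ] H)‖ * ‖e‖) := by
            gcongr; exact ContinuousLinearMap.le_opNorm _ _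
        _ = ‖A - j.1 • (1 : H →L[ℂ] H)‖ := by rw [he]; ring
    · intro z hz
      by_contra hcon
      push Not at hcon
      have hzK : z ∈ Kc := by
        refine ⟨?_, hcon.le⟩
        have := hz (0, ‖A‖ / q + 1) (Finset.mem_insert_self _ _)
        simpa using this
      have hcov := htcov hzK
      simp only [Set.mem_iUnion] at hcov
      obtain ⟨i, hi, hzi⟩ := hcov
      apply hzi
      have := hz (w i, r i) (by
        rw [hJ, Finset.mem_insert, Finset.mem_image]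
        exact Or.inr ⟨i, hi, rfl⟩)
      rw [Metric.mem_closedBall, dist_eq_norm]
      exact this
  refine le_of_forall_pos_le_add fun ε hε => ?_
  have h1 := key (M + ε / cq) (by have : 0 < ε / cq := by positivity
                                  linarith)
  calc ‖aeval A p‖ ≤ cq * (M + ε / cq) := h1
    _ = cq * M + ε := by field_simp

/-- the constant of the problem -/
theorem const_eq (q : ℝ) (hq0 : 0 < q) (hq1 : q ≤ 1) :
    √((1 - √(1 - q ^ 2)) / (1 + √(1 - q ^ 2))) = q / (1 + √(1 - q ^ 2)) := by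
  have hq2 : 0 ≤ 1 - q ^ 2 := by nlinarith
  have hcsq : √(1 - q ^ 2) ^ 2 = 1 - q ^ 2 := Real.sq_sqrt hq2
  have hc0 : 0 ≤ √(1 - q ^ 2) := Real.sqrt_nonneg _
  set c := √(1 - q ^ 2)
  rw [Real.sqrt_eq_iff_mul_self_eq_of_pos (by positivity)]
  have h1 : q * q = (1 - c) * (1 + c) := by nlinarith
  rw [div_mul_div_comm, h1, mul_comm (1 + c) (1 + c), mul_div_mul_right _ _ (by positivity)]

end Pool.Agent.T6.H68.QNR
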