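import Pool.Agent.T6.H68.QNR.Core

set_option autoImplicit false

open MeasureTheory

namespace Pool.Agent.T6.H68.QNR

variable {H : Type*} [NormedAddCommGroup H] [InnerProductSpace ℂ H]

/-- The pointwise expression. -/
noncomputable def pform (S : H →L[ℂ] H) (z : ℂ) (c : ℝ) (k : ℕ) (u0 u1 u2 s0 s1 : H) : ℝ :=
  2 * ((inner ℂ u0 (S u0)).re + (inner ℂ u1 (S u1)).re + (inner ℂ u2 (S u2)).re
      + (inner ℂ u0 ((z ^ 1 • S) u1)).re + (inner ℂ u0 ((z ^ (k + 1) • S) u2)).re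
      + (inner ℂ u1 ((z ^ k • S) u2)).re
      + (inner ℂ u1 ((star z ^ 1 • S) u0)).re + (inner ℂ u2 ((star z ^ (k + 1) • S) u0)).re
      + (inner ℂ u2 ((star z ^ k • S) u1)).re)
    - (‖u0‖ ^ 2 + ‖u1‖ ^ 2 + ‖u2‖ ^ 2)
    - 2 * ((z ^ 1 * inner ℂ u0 u1).re + (z ^ (k + 1) * inner ℂ u0 u2).re
      + (z ^ k * inner ℂ u1 u2).re)
    - 2 * c * ((inner ℂ s0 (S u0)).re + (inner ℂ s0 ((z ^ 1 • S) u1)).re
      + (inner ℂ s0 ((z ^ (k + 1) • S) u2)).re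
      + ((inner ℂ s1 ((star z ^ 1 • S) u0)).re + (inner ℂ s1 (S u1)).re
      + (inner ℂ s1 ((z ^ k • S) u2)).re))
    + ((‖s0‖ ^ 2 + ‖s1‖ ^ 2) + 2 * (z ^ 1 * inner ℂ s0 s1).re)

theorem pform_nonneg (S : H →L[ℂ] H) (c : ℝ)
    (hS : ∀ u s : H, 0 ≤ 2 * (inner ℂ u (S u)).re - ‖u‖ ^ 2 - 2 * c * (inner ℂ s (S u)).re
      + ‖s‖ ^ 2) (z : ℂ) (hz : ‖z‖ ≤ 1) (k : ℕ) (u0 u1 u2 s0 s1 : H) :
    0 ≤ pform S z c k u0 u1 u2 s0 s1 := by
  set Q : H → H → ℂ := fun u s => 2 * inner ℂ u (S u) - inner ℂ u u - 2 * c * inner ℂ s (S u)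
    + inner ℂ s s with hQ
  have hself : ∀ u : H, (inner ℂ u u).re = ‖u‖ ^ 2 := by
    intro u
    exact inner_self_eq_norm_sq (𝕜 := ℂ) u
  have hQn : ∀ u s, 0 ≤ (Q u s).re := by
    intro u s
    have h := hS u s
    rw [hQ]
    simp only [Complex.add_re, Complex.sub_re, hself]
    have e1 : (2 * inner ℂ u (S u)).re = 2 * (inner ℂ u (S u)).re := by
      simp
    have e2 : (2 * (c : ℂ) * inner ℂ s (S u)).re = 2 * c * (inner ℂ s (S u)).re := by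
      have : (2 * (c : ℂ) * inner ℂ s (S u)) = ((2 * c : ℝ) : ℂ) * inner ℂ s (S u) := by
        push_cast; ring
      rw [this, Complex.re_ofReal_mul]
    rw [e1, e2]
    linarith
  have hzz : z * star z = ((‖z‖ ^ 2 : ℝ) : ℂ) := by
    rw [Complex.star_def, Complex.mul_conj, Complex.normSq_eq_norm_sq]
  have hzk : (z * star z) ^ k = (((‖z‖ ^ 2) ^ k : ℝ) : ℂ) := by rw [hzz]; push_cast; ring
  have hr1 : 0 ≤ 1 - ‖z‖ ^ 2 := by
    have : ‖z‖ ^ 2 ≤ 1 := pow_le_one₀ (norm_nonneg z) hz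
    linarith
  have hr2 : 0 ≤ 1 - (‖z‖ ^ 2) ^ k := by
    have : (‖z‖ ^ 2) ^ k ≤ 1 := pow_le_one₀ (by positivity) (pow_le_one₀ (norm_nonneg z) hz)
    linarith
  have h1 := hQn (u0 + z • u1 + z ^ (k + 1) • u2) (s0 + z • s1)
  have h2 : 0 ≤ ((1 - z * star z) * Q (u1 + z ^ k • u2) s1).re := by
    rw [hzz, ← Complex.ofReal_one, ← Complex.ofReal_sub, Complex.re_ofReal_mul]
    exact mul_nonneg hr1 (hQn _ _)
  have h3 : 0 ≤ ((1 - (z * star z) ^ k) * Q u2 0).re := by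
    rw [hzk, ← Complex.ofReal_one, ← Complex.ofReal_sub, Complex.re_ofReal_mul]
    exact mul_nonneg hr2 (hQn _ _)
  have hsum := add_nonneg (add_nonneg h1 h2) h3
  rw [← Complex.add_re, ← Complex.add_re] at hsum
  set Ec : ℂ := 2 * (inner ℂ u0 (S u0) + inner ℂ u1 (S u1) + inner ℂ u2 (S u2)
      + inner ℂ u0 ((z ^ 1 • S) u1) + inner ℂ u0 ((z ^ (k + 1) • S) u2)
      + inner ℂ u1 ((z ^ k • S) u2)
      + inner ℂ u1 ((star z ^ 1 • S) u0) + inner ℂ u2 ((star z ^ (k + 1) • S) u0)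
      + inner ℂ u2 ((star z ^ k • S) u1))
    - (inner ℂ u0 u0 + inner ℂ u1 u1 + inner ℂ u2 u2)
    - ((z ^ 1 * inner ℂ u0 u1 + star z ^ 1 * inner ℂ u1 u0)
      + (z ^ (k + 1) * inner ℂ u0 u2 + star z ^ (k + 1) * inner ℂ u2 u0)
      + (z ^ k * inner ℂ u1 u2 + star z ^ k * inner ℂ u2 u1))
    - 2 * c * (inner ℂ s0 (S u0) + inner ℂ s0 ((z ^ 1 • S) u1)
      + inner ℂ s0 ((z ^ (k + 1) • S) u2)
      + (inner ℂ s1 ((star z ^ 1 • S) u0) + inner ℂ s1 (S u1)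
      + inner ℂ s1 ((z ^ k • S) u2)))
    + ((inner ℂ s0 s0 + inner ℂ s1 s1) + (z ^ 1 * inner ℂ s0 s1 + star z ^ 1 * inner ℂ s1 s0))
    with hEc
  have e : Q (u0 + z • u1 + z ^ (k + 1) • u2) (s0 + z • s1)
      + (1 - z * star z) * Q (u1 + z ^ k • u2) s1 + (1 - (z * star z) ^ k) * Q u2 0 = Ec := by
    rw [hEc, hQ]
    simp only [map_add, map_smul, inner_add_left, inner_add_right, inner_smul_left,
      inner_smul_right, smul_apply, Complex.star_def, map_pow, inner_zero_left, inner_zero_right]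
    ring
  rw [e] at hsum
  refine hsum.trans (le_of_eq ?_)
  rw [hEc]
  unfold pform
  have hcj : ∀ (w : ℂ) (a b : H), (star w * inner ℂ b a).re = (w * inner ℂ a b).re := by
    intro w a b
    rw [← inner_conj_symm b a, ← Complex.star_def, ← star_mul', Complex.star_def, Complex.conj_re]
  have m2 : ∀ w : ℂ, (2 * w).re = 2 * w.re := by intro w; simp
  have m2c : ∀ w : ℂ, (2 * (c : ℂ) * w).re = 2 * c * w.re := by
    intro w
    have : (2 * (c : ℂ) * w) = ((2 * c : ℝ) : ℂ) * w := by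
      push_cast; ring
    rw [this, Complex.re_ofReal_mul]
  simp only [Complex.add_re, Complex.sub_re, m2, m2c, hself]
  rw [← star_pow, ← star_pow, ← star_pow, hcj, hcj, hcj, hcj]
  ring

section integ

variable {α : Type*} [MeasurableSpace α] {μ : Measure α}

/-- integrable with given integral -/
def HI (μ : Measure α) (f : α → ℝ) (I : ℝ) : Prop := Integrable f μ ∧ ∫ t, f t ∂μ = I

theorem HI.add {f g : α → ℝ} {I J : ℝ} (hf : HI μ f I) (hg : HI μ g J) :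
    HI μ (fun t => f t + g t) (I + J) :=
  ⟨hf.1.add hg.1, by rw [integral_add hf.1 hg.1, hf.2, hg.2]⟩

theorem HI.sub {f g : α → ℝ} {I J : ℝ} (hf : HI μ f I) (hg : HI μ g J) :
    HI μ (fun t => f t - g t) (I - J) :=
  ⟨hf.1.sub hg.1, by rw [integral_sub hf.1 hg.1, hf.2, hg.2]⟩

theorem HI.cmul {f : α → ℝ} {I : ℝ} (a : ℝ) (hf : HI μ f I) :
    HI μ (fun t => a * f t) (a * I) :=
  ⟨hf.1.const_mul a, by rw [integral_const_mul, hf.2]⟩

theorem HI.const [IsFiniteMeasure μ] (a : ℝ) : HI μ (fun _ => a) (μ.real Set.univ * a) :=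
  ⟨integrable_const a, by rw [integral_const, smul_eq_mul]⟩

theorem HI.op [CompleteSpace H] {Y : α → H →L[ℂ] H} (hY : Integrable Y μ) (v u : H) :
    HI μ (fun t => (inner ℂ v (Y t u)).re) (inner ℂ v ((∫ t, Y t ∂μ) u)).re := by
  set Λ : (H →L[ℂ] H) →L[ℂ] ℂ := (innerSL ℂ v).comp (ContinuousLinearMap.apply ℂ H u) with hΛ
  have h1 : Integrable (fun t => Λ (Y t)) μ := Λ.integrable_comp hY
  refine ⟨h1.re, ?_⟩
  have e1 := Λ.integral_comp_comm hY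
  have e2 := Complex.reCLM.integral_comp_comm h1
  have e3 : ∫ t, Λ (Y t) ∂μ = inner ℂ v ((∫ t, Y t ∂μ) u) := e1
  rw [← e3]
  exact e2

theorem HI.sc {w : α → ℂ} (hw : Integrable w μ) (a : ℂ) :
    HI μ (fun t => (w t * a).re) ((∫ t, w t ∂μ) * a).re := by
  have h1 : Integrable (fun t => w t * a) μ := hw.mul_const a
  refine ⟨h1.re, ?_⟩
  have e2 := Complex.reCLM.integral_comp_comm h1
  have e3 : ∫ t, w t * a ∂μ = (∫ t, w t ∂μ) * a := integral_mul_const a w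
  rw [← e3]
  exact e2

/-- The positivity of `form`. -/
theorem form_nonneg [CompleteSpace H] [IsFiniteMeasure μ] (S : α → H →L[ℂ] H) (z : α → ℂ) (c : ℝ)
    (hS : ∀ t, ∀ u s : H, 0 ≤ 2 * (inner ℂ u (S t u)).re - ‖u‖ ^ 2
      - 2 * c * (inner ℂ s (S t u)).re + ‖s‖ ^ 2)
    (hz : ∀ t, ‖z t‖ ≤ 1) (T : H →L[ℂ] H) (G : ℕ → H →L[ℂ] H) (lam : ℕ → ℂ)
    (hi : ∀ n, Integrable (fun t => z t ^ n • S t) μ)
    (hi' : ∀ n, Integrable (fun t => star (z t) ^ n • S t) μ)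
    (hiz : ∀ n, Integrable (fun t => z t ^ n) μ)
    (hT : ∀ n, ∫ t, z t ^ n • S t ∂μ = T ^ n)
    (hG : ∀ n, ∫ t, star (z t) ^ n • S t ∂μ = G n)
    (hlam : ∀ n, ∫ t, z t ^ n ∂μ = lam n) (k : ℕ) (u0 u1 u2 s0 s1 : H) :
    0 ≤ form T G lam c (μ.real Set.univ) k u0 u1 u2 s0 s1 := by
  have hS0 : Integrable S μ := by simpa using hi 0
  have hSI : ∫ t, S t ∂μ = 1 := by simpa using hT 0
  have o0 : ∀ v u : H, HI μ (fun t => (inner ℂ v (S t u)).re) (inner ℂ v u).re := by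
    intro v u
    have := HI.op hS0 v u
    rw [hSI] at this
    exact this
  have o1 : ∀ (n : ℕ) (v u : H), HI μ (fun t => (inner ℂ v ((z t ^ n • S t) u)).re)
      (inner ℂ v ((T ^ n) u)).re := by
    intro n v u
    rw [← hT n]
    exact HI.op (hi n) v u
  have o2 : ∀ (n : ℕ) (v u : H), HI μ (fun t => (inner ℂ v ((star (z t) ^ n • S t) u)).re)
      (inner ℂ v (G n u)).re := by
    intro n v u
    rw [← hG n]
    exact HI.op (hi' n) v u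
  have o3 : ∀ (n : ℕ) (a : ℂ), HI μ (fun t => (z t ^ n * a).re) (lam n * a).re := by
    intro n a
    rw [← hlam n]
    exact HI.sc (hiz n) a
  have main := ((((((((((((((o0 u0 u0).add (o0 u1 u1)).add (o0 u2 u2)).add (o1 1 u0 u1)).add
    (o1 (k + 1) u0 u2)).add (o1 k u1 u2)).add (o2 1 u1 u0)).add (o2 (k + 1) u2 u0)).add
    (o2 k u2 u1)).cmul 2).sub (HI.const (μ := μ) (‖u0‖ ^ 2 + ‖u1‖ ^ 2 + ‖u2‖ ^ 2))).sub
    ((((o3 1 (inner ℂ u0 u1)).add (o3 (k + 1) (inner ℂ u0 u2))).add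
      (o3 k (inner ℂ u1 u2))).cmul 2)).sub
    (((((o0 s0 u0).add (o1 1 s0 u1)).add (o1 (k + 1) s0 u2)).add
      (((o2 1 s1 u0).add (o0 s1 u1)).add (o1 k s1 u2))).cmul (2 * c))).add
    ((HI.const (μ := μ) (‖s0‖ ^ 2 + ‖s1‖ ^ 2)).add ((o3 1 (inner ℂ s0 s1)).cmul 2)))
  have hnn : 0 ≤ ∫ t, pform (S t) (z t) c k u0 u1 u2 s0 s1 ∂μ :=
    integral_nonneg fun t => pform_nonneg (S t) c (hS t) (z t) (hz t) k u0 u1 u2 s0 s1
  have he : ∫ t, pform (S t) (z t) c k u0 u1 u2 s0 s1 ∂μ = _ := main.2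
  rw [he] at hnn
  refine hnn.trans (le_of_eq ?_)
  unfold form
  have hself : ∀ u : H, (inner ℂ u u).re = ‖u‖ ^ 2 := by
    intro u
    exact inner_self_eq_norm_sq (𝕜 := ℂ) u
  simp only [inner_add_right, Complex.add_re, hself, pow_one]

end integ

end Pool.Agent.T6.H68.QNR
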