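import Mathlib

set_option autoImplicit false

open Set Filter Topology Complex

namespace Pool.Agent.T6.H68.QNR

/-- the rotated vector from the active centre to the boundary point -/
noncomputable def dd (R : ℝ → ℝ) (w : ℝ → ℂ) (φ : ℝ) : ℂ :=
  (R φ : ℂ) - exp (-(φ : ℂ) * I) * w φ

/-- `R` is the radial function of the intersection of the discs in `J`, with active centre `w`. -/
structure Rad (J : Set (ℂ × ℝ)) (R : ℝ → ℝ) (w : ℝ → ℂ) (N : Set ℝ) : Prop where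
  pos : ∀ φ, 0 < R φ
  cont : Continuous R
  per : ∀ φ, R (φ + 2 * Real.pi) = R φ
  meas : Measurable w
  mem : ∀ φ, (w φ, ‖dd R w φ‖) ∈ J
  inside : ∀ φ t : ℝ, 0 ≤ t → t ≤ R φ → ∀ j ∈ J, ‖(t : ℂ) - exp (-(φ : ℂ) * I) * j.1‖ ≤ j.2
  red : ∀ φ, 0 < (dd R w φ).re
  cnt : N.Countable
  der : ∀ φ, φ ∉ N → HasDerivAt R (-(R φ * (dd R w φ).im / (dd R w φ).re)) φ

theorem countable_crossing (R1 R2 : ℝ → ℝ) :
    {φ : ℝ | R1 φ = R2 φ ∧ ∃ D1 D2, HasDerivAt R1 D1 φ ∧ HasDerivAt R2 D2 φ ∧ D1 ≠ D2}.Countable := by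
  set Z := {φ : ℝ | R1 φ = R2 φ ∧ ∃ D1 D2, HasDerivAt R1 D1 φ ∧ HasDerivAt R2 D2 φ ∧ D1 ≠ D2}
  refine (countable_setOfPred_isolated_right_within (s := Z)).mono ?_
  intro φ hφ
  refine ⟨hφ, ?_⟩
  obtain ⟨h0, D1, D2, h1, h2, hne⟩ := hφ
  have h3 : HasDerivAt (fun t => R1 t - R2 t) (D1 - D2) φ := h1.sub h2
  have h4 : ∀ᶠ t in 𝓝[≠] φ, (fun t => R1 t - R2 t) t ≠ 0 :=
    h3.eventually_ne (sub_ne_zero.mpr hne)
  have h5 : ∀ᶠ t in 𝓝[Z ∩ Ioi φ] φ, R1 t - R2 t ≠ 0 := by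
    refine h4.filter_mono (nhdsWithin_mono _ ?_)
    intro t ht
    exact ne_of_gt ht.2
  have h6 : ∀ᶠ t in 𝓝[Z ∩ Ioi φ] φ, R1 t - R2 t = 0 := by
    filter_upwards [self_mem_nhdsWithin] with t ht
    rw [ht.1.1, sub_self]
  rw [← Filter.eventually_false_iff_eq_bot]
  filter_upwards [h5, h6] with t h h'
  exact h h'

theorem hasDerivAt_min {R1 R2 : ℝ → ℝ} {D φ : ℝ} (h1 : HasDerivAt R1 D φ) (h2 : HasDerivAt R2 D φ)
    (h0 : R1 φ = R2 φ) : HasDerivAt (fun t => min (R1 t) (R2 t)) D φ := by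
  rw [hasDerivAt_iff_isLittleO] at *
  have h3 := h1.norm_left.add h2.norm_left
  refine Asymptotics.IsBigO.trans_isLittleO ?_ h3
  refine Asymptotics.IsBigO.of_bound 1 (Eventually.of_forall fun t => ?_)
  rw [one_mul]
  have e : min (R1 t) (R2 t) - min (R1 φ) (R2 φ) - (t - φ) • D =
      min (R1 t - R1 φ - (t - φ) • D) (R2 t - R2 φ - (t - φ) • D) := by
    rw [← h0, min_self, ← min_sub_sub_right, ← min_sub_sub_right]
  rw [e]
  simp only [Real.norm_eq_abs]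
  set a := R1 t - R1 φ - (t - φ) • D
  set b := R2 t - R2 φ - (t - φ) • D
  rw [abs_of_nonneg (add_nonneg (abs_nonneg a) (abs_nonneg b))]
  rcases min_choice a b with h | h <;> rw [h]
  · linarith [abs_nonneg b]
  · linarith [abs_nonneg a]

theorem rad_min {J1 J2 : Set (ℂ × ℝ)} {R1 R2 : ℝ → ℝ} {w1 w2 : ℝ → ℂ} {N1 N2 : Set ℝ}
    (h1 : Rad J1 R1 w1 N1) (h2 : Rad J2 R2 w2 N2) :
    ∃ N, Rad (J1 ∪ J2) (fun φ => min (R1 φ) (R2 φ)) (fun φ => if R1 φ ≤ R2 φ then w1 φ else w2 φ) N := by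
  classical
  set Z := {φ : ℝ | R1 φ = R2 φ ∧ ∃ D1 D2, HasDerivAt R1 D1 φ ∧ HasDerivAt R2 D2 φ ∧ D1 ≠ D2}
    with hZ
  have hdd1 : ∀ φ, R1 φ ≤ R2 φ → dd (fun φ => min (R1 φ) (R2 φ))
      (fun φ => if R1 φ ≤ R2 φ then w1 φ else w2 φ) φ = dd R1 w1 φ := by
    intro φ h
    unfold dd
    simp only [if_pos h, min_eq_left h]
  have hdd2 : ∀ φ, ¬ R1 φ ≤ R2 φ → dd (fun φ => min (R1 φ) (R2 φ))
      (fun φ => if R1 φ ≤ R2 φ then w1 φ else w2 φ) φ = dd R2 w2 φ := by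
    intro φ h
    unfold dd
    simp only [if_neg h, min_eq_right (not_le.mp h).le]
  refine ⟨N1 ∪ N2 ∪ Z, ?_⟩
  constructor
  · intro φ; exact lt_min (h1.pos φ) (h2.pos φ)
  · exact h1.cont.min h2.cont
  · intro φ; simp only [h1.per, h2.per]
  · exact Measurable.ite (measurableSet_le h1.cont.measurable h2.cont.measurable) h1.meas h2.meas
  · intro φ
    by_cases h : R1 φ ≤ R2 φ
    · rw [hdd1 φ h, if_pos h]; exact Or.inl (h1.mem φ)
    · rw [hdd2 φ h, if_neg h]; exact Or.inr (h2.mem φ)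
  · intro φ t ht0 ht j hj
    rcases hj with hj | hj
    · exact h1.inside φ t ht0 (ht.trans (min_le_left _ _)) j hj
    · exact h2.inside φ t ht0 (ht.trans (min_le_right _ _)) j hj
  · intro φ
    by_cases h : R1 φ ≤ R2 φ
    · rw [hdd1 φ h]; exact h1.red φ
    · rw [hdd2 φ h]; exact h2.red φ
  · exact (h1.cnt.union h2.cnt).union (countable_crossing R1 R2)
  · intro φ hφ
    simp only [mem_union, not_or] at hφ
    obtain ⟨⟨hn1, hn2⟩, hnZ⟩ := hφ
    have d1 := h1.der φ hn1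
    have d2 := h2.der φ hn2
    rcases lt_trichotomy (R1 φ) (R2 φ) with h | h | h
    · rw [hdd1 φ h.le]
      have hev : (fun φ => min (R1 φ) (R2 φ)) =ᶠ[𝓝 φ] R1 := by
        filter_upwards [h1.cont.continuousAt.eventually_lt h2.cont.continuousAt h] with t ht
        exact min_eq_left ht.le
      simp only [min_eq_left h.le]
      exact d1.congr_of_eventuallyEq hev
    · have hD : -(R1 φ * (dd R1 w1 φ).im / (dd R1 w1 φ).re) =
          -(R2 φ * (dd R2 w2 φ).im / (dd R2 w2 φ).re) := by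
        by_contra hne
        exact hnZ ⟨h, _, _, d1, d2, hne⟩
      rw [hdd1 φ h.le]
      simp only [min_eq_left h.le]
      rw [← hD] at d2
      exact hasDerivAt_min d1 d2 h
    · rw [hdd2 φ (not_le.mpr h)]
      have hev : (fun φ => min (R1 φ) (R2 φ)) =ᶠ[𝓝 φ] R2 := by
        filter_upwards [h2.cont.continuousAt.eventually_lt h1.cont.continuousAt h] with t ht
        exact min_eq_right ht.le
      simp only [min_eq_right h.le]
      exact d2.congr_of_eventuallyEq hev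

/-- a single disc -/
theorem rad_single (w : ℂ) (ρ : ℝ) (hw : ‖w‖ < ρ) :
    ∃ R : ℝ → ℝ, Rad {(w, ρ)} R (fun _ => w) ∅ := by
  have hρ : 0 < ρ := (norm_nonneg w).trans_lt hw
  set a : ℝ → ℝ := fun φ => w.re * Real.cos φ + w.im * Real.sin φ with ha
  set b : ℝ → ℝ := fun φ => w.im * Real.cos φ - w.re * Real.sin φ with hb
  have hkap : ∀ φ : ℝ, exp (-(φ : ℂ) * I) * w = (a φ : ℂ) + (b φ : ℂ) * I := by
    intro φ
    rw [show -(φ : ℂ) * I = ((-φ : ℝ) : ℂ) * I by push_cast; ring, Complex.exp_mul_I,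
      ← Complex.ofReal_cos, ← Complex.ofReal_sin, Real.cos_neg, Real.sin_neg, ha, hb]
    apply Complex.ext
    · simp
      ring
    · simp
      ring
  have hab : ∀ φ, a φ ^ 2 + b φ ^ 2 = ‖w‖ ^ 2 := by
    intro φ
    rw [← Complex.normSq_eq_norm_sq, Complex.normSq_apply, ha, hb]
    simp only
    nlinarith [Real.sin_sq_add_cos_sq φ]
  have hlt : ∀ φ, a φ ^ 2 + b φ ^ 2 < ρ ^ 2 := by
    intro φ
    rw [hab]
    exact pow_lt_pow_left₀ hw (norm_nonneg _) (by norm_num)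
  set s : ℝ → ℝ := fun φ => √(ρ ^ 2 - b φ ^ 2) with hs
  have hsp : ∀ φ, 0 < ρ ^ 2 - b φ ^ 2 := by
    intro φ; nlinarith [hlt φ, sq_nonneg (a φ)]
  have hs0 : ∀ φ, 0 < s φ := fun φ => Real.sqrt_pos.mpr (hsp φ)
  have hssq : ∀ φ, s φ ^ 2 = ρ ^ 2 - b φ ^ 2 := fun φ => Real.sq_sqrt (hsp φ).le
  have hsa : ∀ φ, |a φ| < s φ := by
    intro φ
    apply abs_lt_of_sq_lt_sq _ (hs0 φ).le
    rw [hssq]
    nlinarith [hlt φ]
  have hac : Continuous a := by rw [ha]; fun_prop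
  have hbc : Continuous b := by rw [hb]; fun_prop
  have hda : ∀ φ, HasDerivAt a (b φ) φ := by
    intro φ
    have h := ((Real.hasDerivAt_cos φ).const_mul w.re).add ((Real.hasDerivAt_sin φ).const_mul w.im)
    refine h.congr_deriv ?_
    rw [hb]; simp only; ring
  have hdb : ∀ φ, HasDerivAt b (-a φ) φ := by
    intro φ
    have h := ((Real.hasDerivAt_cos φ).const_mul w.im).sub ((Real.hasDerivAt_sin φ).const_mul w.re)
    refine h.congr_deriv ?_
    rw [ha]; simp only; ring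
  have hds : ∀ φ, HasDerivAt s (a φ * b φ / s φ) φ := by
    intro φ
    have h0 : HasDerivAt (fun t => b t ^ 2) (2 * b φ * -a φ) φ := by
      refine ((hdb φ).pow 2).congr_deriv ?_
      simp
    have h := (h0.const_sub (ρ ^ 2)).sqrt (hsp φ).ne'
    refine h.congr_deriv ?_
    have := (hs0 φ).ne'
    show -(2 * b φ * -a φ) / (2 * s φ) = _
    field_simp
  set R : ℝ → ℝ := fun φ => a φ + s φ with hR
  have hdd : ∀ φ, dd R (fun _ => w) φ = (s φ : ℂ) - (b φ : ℂ) * I := by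
    intro φ
    unfold dd
    rw [hkap, hR]
    push_cast
    ring
  have hnorm : ∀ (x y : ℝ), ‖(x : ℂ) - (y : ℂ) * I‖ = √(x ^ 2 + y ^ 2) := by
    intro x y
    rw [Complex.norm_eq_sqrt_sq_add_sq]
    congr 1
    simp
  refine ⟨R, ?_⟩
  constructor
  · intro φ
    have h1 := hsa φ
    have h2 := neg_abs_le (a φ)
    rw [hR]; simp only; linarith
  · have : Continuous s := by rw [hs]; fun_prop
    exact hac.add this
  · intro φ
    have e1 : a (φ + 2 * Real.pi) = a φ := by rw [ha]; simp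
    have e2 : b (φ + 2 * Real.pi) = b φ := by rw [hb]; simp
    rw [hR, hs]
    simp only [e1, e2]
  · exact measurable_const
  · intro φ
    rw [hdd, hnorm, hssq, mem_singleton_iff, sub_add_cancel, Real.sqrt_sq hρ.le]
  · intro φ t ht0 ht j hj
    rw [mem_singleton_iff] at hj
    rw [hj]
    simp only
    rw [hkap]
    have e : (t : ℂ) - ((a φ : ℂ) + (b φ : ℂ) * I) = ((t - a φ : ℝ) : ℂ) - (b φ : ℂ) * I := by
      push_cast; ring
    rw [e, hnorm]
    apply Real.sqrt_le_iff.mpr ⟨hρ.le, ?_⟩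
    have h1 := hssq φ
    have h2 : t ≤ a φ + s φ := ht
    have h3 := hsa φ
    have h4 := abs_lt.mp h3
    have h5 : (t - a φ) ^ 2 ≤ s φ ^ 2 := by
      apply sq_le_sq'
      · linarith [h4.1]
      · linarith
    linarith
  · intro φ
    rw [hdd]
    simp
    exact hs0 φ
  · exact countable_empty
  · intro φ _
    have h := (hda φ).add (hds φ)
    refine h.congr_deriv ?_
    have e1 : (dd R (fun _ => w) φ).re = s φ := by rw [hdd]; simp
    have e2 : (dd R (fun _ => w) φ).im = -b φ := by rw [hdd]; simp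
    rw [e1, e2, hR]
    simp only
    have := (hs0 φ).ne'
    field_simp
    ring

/-- finitely many discs -/
theorem rad_exists (J : Finset (ℂ × ℝ)) (hne : J.Nonempty) (hJ : ∀ j ∈ J, ‖j.1‖ < j.2) :
    ∃ (R : ℝ → ℝ) (w : ℝ → ℂ) (N : Set ℝ), Rad (J : Set (ℂ × ℝ)) R w N := by
  classical
  induction hne using Finset.Nonempty.cons_induction with
  | singleton a =>
    obtain ⟨R, hR⟩ := rad_single a.1 a.2 (hJ a (by simp))
    exact ⟨R, fun _ => a.1, ∅, by simpa using hR⟩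
  | cons a s ha hs ih =>
    obtain ⟨R2, w2, N2, h2⟩ := ih (fun j hj => hJ j (by simp [hj]))
    obtain ⟨R1, h1⟩ := rad_single a.1 a.2 (hJ a (by simp))
    obtain ⟨N, hN⟩ := rad_min h1 h2
    refine ⟨fun φ => min (R1 φ) (R2 φ), fun φ => if R1 φ ≤ R2 φ then a.1 else w2 φ, N, ?_⟩
    have e : ((Finset.cons a s ha : Finset (ℂ × ℝ)) : Set (ℂ × ℝ)) = {(a.1, a.2)} ∪ (s : Set (ℂ × ℝ)) := by
      simp
    rw [e]
    exact hN

end Pool.Agent.T6.H68.QNR
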